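import Pool.Agent.LibSQ55.Q1

/-!
The quartic is irreducible if `x` is large.
-/

set_option autoImplicit false

open Polynomial

namespace SQ55

/-- the quartic -/
noncomputable def gq (A x y : ℤ) : ℤ[X] :=
  X ^ 4 - C (6 * x) * X ^ 2 - C (8 * y) * X - C (3 * x ^ 2 + 4 * A)

theorem gq_natDegree (A x y : ℤ) : (gq A x y).natDegree = 4 := by
  unfold gq
  compute_degree!

theorem gq_monic (A x y : ℤ) : (gq A x y).Monic := by
  unfold gq
  monicity!

theorem gq_aeval (A x y : ℤ) (T : ℂ) :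
    aeval T (gq A x y) = T ^ 4 - 6 * x * T ^ 2 - 8 * y * T - 3 * x ^ 2 - 4 * A := by
  unfold gq
  rw [aeval_def]
  simp only [eval₂_sub, eval₂_mul, eval₂_pow, eval₂_X, eval₂_C, algebraMap_int_eq]
  simp only [eq_intCast]
  push_cast
  ring

theorem vieta4 {p q s t1 t2 t3 t4 : ℂ} (h : ∀ T : ℂ, T ^ 4 - p * T ^ 2 - q * T - s =
    (T - t1) * (T - t2) * (T - t3) * (T - t4)) :
    t1 + t2 + t3 + t4 = 0 ∧ t1 * t2 + t1 * t3 + t1 * t4 + t2 * t3 + t2 * t4 + t3 * t4 = -p ∧
      t1 * t2 * t3 + t1 * t2 * t4 + t1 * t3 * t4 + t2 * t3 * t4 = q ∧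
      t1 * t2 * t3 * t4 = -s := by
  have h0 := h 0
  have h1 := h 1
  have h2 := h (-1)
  have h3 := h 2
  have c0 : t1 * t2 * t3 * t4 = -s := by linear_combination -h0
  have c2 : t1 * t2 + t1 * t3 + t1 * t4 + t2 * t3 + t2 * t4 + t3 * t4 = -p := by
    linear_combination (-1 / 2 : ℂ) * h1 - (1 / 2 : ℂ) * h2 + h0
  have c1 : t1 + t2 + t3 + t4 = 0 := by
    linear_combination (1 / 6 : ℂ) * h3 - (1 / 2 : ℂ) * h1 - (1 / 6 : ℂ) * h2 + (1 / 2 : ℂ) * h0
  refine ⟨c1, c2, ?_, c0⟩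
  linear_combination (1 / 2 : ℂ) * h1 - (1 / 2 : ℂ) * h2 - c1

theorem disc_e {e1 e2 e3 A B : ℂ} (k1 : e1 + e2 + e3 = 0) (k2 : e1 * e2 + e1 * e3 + e2 * e3 = A)
    (k3 : e1 * e2 * e3 = -B) :
    (e1 - e2) ^ 2 * (e1 - e3) ^ 2 * (e2 - e3) ^ 2 = -(4 * A ^ 3 + 27 * B ^ 2) := by
  have h3 : e3 = -e1 - e2 := by linear_combination k1
  have hB : B = -(e1 * e2 * e3) := by linear_combination k3
  rw [hB, ← k2, h3]
  ring

/-- an integer of absolute value less than one -/
theorem int_zero {n : ℤ} {z : ℂ} (h : (n : ℂ) = z) (hz : ‖z‖ < 1) : z = 0 := by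
  rw [← h] at hz ⊢
  rw [Complex.norm_intCast] at hz
  have h1 : |n| < 1 := by exact_mod_cast hz
  have h2 : n = 0 := Int.abs_lt_one_iff.1 h1
  rw [h2]
  norm_num

/-- no quadratic factor has two roots in the cluster -/
theorem noquad {b c : ℤ} {u v : ℂ} (huv : u ≠ v) (hd : ‖u - v‖ < 1) (hu : u ^ 2 + b * u + c = 0)
    (hv : v ^ 2 + b * v + c = 0) : False := by
  have h1 : (u - v) * (u + v + b) = 0 := by linear_combination hu - hv
  have h2 : (b : ℂ) = -(u + v) := by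
    have := (mul_eq_zero.1 h1).resolve_left (sub_ne_zero.2 huv)
    linear_combination this
  have h3 : (c : ℂ) = u * v := by
    have : (c : ℂ) = -(u ^ 2 + b * u) := by linear_combination hu
    rw [this, h2]
    ring
  have h4 : ((b ^ 2 - 4 * c : ℤ) : ℂ) = (u - v) ^ 2 := by
    push_cast
    rw [h2, h3]
    ring
  have h5 : ‖(u - v) ^ 2‖ < 1 := by
    rw [norm_pow]
    exact pow_lt_one₀ (norm_nonneg _) hd (by norm_num)
  have h6 := int_zero h4 h5
  exact sub_ne_zero.2 huv (pow_eq_zero_iff (two_ne_zero) |>.1 h6)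

/-- The quartic is irreducible. -/
theorem gq_irred {A B x y : ℤ} {R r : ℝ} (hR1 : 1 ≤ R) (h4 : 100 * R ^ 2 ≤ r)
    (hΔ : 4 * A ^ 3 + 27 * B ^ 2 ≠ 0) {e1 e2 e3 t1 t2 t3 t4 : ℂ}
    (he : e1 + e2 + e3 = 0 ∧ e1 * e2 + e1 * e3 + e2 * e3 = A ∧ e1 * e2 * e3 = -B)
    (hT : ∀ T : ℂ, T ^ 4 - 6 * x * T ^ 2 - 8 * y * T - 3 * x ^ 2 - 4 * A =
      (T - t1) * (T - t2) * (T - t3) * (T - t4))
    (hE : (t1 - t2) * (t3 - t4) = 4 * (e3 - e2) ∧ (t1 - t3) * (t4 - t2) = 4 * (e1 - e3) ∧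
      (t1 - t4) * (t2 - t3) = 4 * (e2 - e1))
    (hb : (3 * r ≤ ‖t1 - t2‖ ∧ ‖t1 - t2‖ ≤ 5 * r) ∧ (3 * r ≤ ‖t1 - t3‖ ∧ ‖t1 - t3‖ ≤ 5 * r) ∧
      (3 * r ≤ ‖t1 - t4‖ ∧ ‖t1 - t4‖ ≤ 5 * r))
    (h23 : ‖t2 - t3‖ ≤ 4 * R / r) (h24 : ‖t2 - t4‖ ≤ 4 * R / r) (h34 : ‖t3 - t4‖ ≤ 4 * R / r) :
    Irreducible (gq A x y) := by
  obtain ⟨k1, k2, k3⟩ := he
  obtain ⟨E1, E2, E3⟩ := hE
  obtain ⟨⟨a2, b2⟩, ⟨a3, b3⟩, ⟨a4, b4⟩⟩ := hb
  have hr0 : 0 < r := lt_of_lt_of_le (by positivity) h4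
  have hRR : R ≤ R ^ 2 := by nlinarith
  obtain ⟨δ, hδ⟩ : ∃ δ, δ = 4 * R / r := ⟨_, rfl⟩
  rw [← hδ] at h23 h24 h34
  have hδ0 : 0 ≤ δ := by rw [hδ]; positivity
  have hδ1 : δ < 1 := by
    rw [hδ, div_lt_one hr0]
    linarith
  have hδr : 5 * r * (δ * δ) < 1 := by
    have h1 : 5 * r * (δ * δ) = 80 * R ^ 2 / r := by
      rw [hδ]
      field_simp
      ring
    rw [h1, div_lt_one hr0]
    have : 0 < R ^ 2 := by positivity
    linarith
  have hdis := disc_e k1 k2 k3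
  have hΔC : -(4 * (A : ℂ) ^ 3 + 27 * (B : ℂ) ^ 2) ≠ 0 := by
    have : ((4 * A ^ 3 + 27 * B ^ 2 : ℤ) : ℂ) ≠ 0 := by exact_mod_cast hΔ
    push_cast at this
    exact neg_ne_zero.2 this
  rw [← hdis] at hΔC
  have n12 : e1 ≠ e2 := by
    rintro rfl
    apply hΔC
    ring
  have n13 : e1 ≠ e3 := by
    rintro rfl
    apply hΔC
    ring
  have n23 : e2 ≠ e3 := by
    rintro rfl
    apply hΔC
    ring
  have t34 : t3 ≠ t4 := by
    rintro rfl
    apply n23
    have : 4 * (e3 - e2) = 0 := by rw [← E1]; ring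
    linear_combination (-1 / 4 : ℂ) * this
  have t24 : t2 ≠ t4 := by
    rintro rfl
    apply n13
    have : 4 * (e1 - e3) = 0 := by rw [← E2]; ring
    linear_combination (1 / 4 : ℂ) * this
  have t23 : t2 ≠ t3 := by
    rintro rfl
    apply n12
    have : 4 * (e2 - e1) = 0 := by rw [← E3]; ring
    linear_combination (-1 / 4 : ℂ) * this
  have t12 : t1 ≠ t2 := by
    rintro rfl
    rw [sub_self, norm_zero] at a2
    linarith
  have t13 : t1 ≠ t3 := by
    rintro rfl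
    rw [sub_self, norm_zero] at a3
    linarith
  have t14 : t1 ≠ t4 := by
    rintro rfl
    rw [sub_self, norm_zero] at a4
    linarith
  obtain ⟨v1, v2, v3, v4⟩ := vieta4 (p := 6 * x) (q := 8 * y) (s := 3 * x ^ 2 + 4 * A)
    (t1 := t1) (t2 := t2) (t3 := t3) (t4 := t4) (by
      intro T
      rw [← hT T]
      ring)
  -- integer roots in the cluster
  have hcl : ∀ (n : ℤ) (u v w : ℂ), ‖t1 - u‖ ≤ 5 * r → ‖u - v‖ ≤ δ → ‖u - w‖ ≤ δ → u ≠ v →
      u ≠ w → t1 ≠ u → (n : ℂ) = u →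
      (u - t1) * (u - v) * (u - w) = 4 * u ^ 3 - 12 * x * u - 8 * y → False := by
    intro n u v w g1 g2 g3 g4 g5 g6 g7 g8
    have h1 : ((4 * n ^ 3 - 12 * x * n - 8 * y : ℤ) : ℂ) = (u - t1) * (u - v) * (u - w) := by
      push_cast
      rw [g7, g8]
    have h2 : ‖(u - t1) * (u - v) * (u - w)‖ < 1 := by
      rw [norm_mul, norm_mul, norm_sub_rev u t1]
      calc ‖t1 - u‖ * ‖u - v‖ * ‖u - w‖ ≤ (5 * r) * δ * δ := by gcongr
        _ = 5 * r * (δ * δ) := by ring
        _ < 1 := hδr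
    have h3 := int_zero h1 h2
    rcases mul_eq_zero.1 h3 with h3 | h3
    · rcases mul_eq_zero.1 h3 with h3 | h3
      · exact g6 (sub_eq_zero.1 h3).symm
      · exact g4 (sub_eq_zero.1 h3)
    · exact g5 (sub_eq_zero.1 h3)
  have hroot : ∀ n : ℤ, ((n : ℂ) - t1) * (n - t2) * (n - t3) * (n - t4) = 0 → False := by
    intro n hn
    rcases mul_eq_zero.1 hn with hn | hn
    · rcases mul_eq_zero.1 hn with hn | hn
      · rcases mul_eq_zero.1 hn with hn | hn
        · -- the isolated root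
          have hnt : (n : ℂ) = t1 := sub_eq_zero.1 hn
          have h1 : t1 = -(t2 + t3 + t4) := by linear_combination v1
          have hx6 : 6 * (x : ℂ) = -(t1 * t2 + t1 * t3 + t1 * t4 + t2 * t3 + t2 * t4 +
            t3 * t4) := by linear_combination v2
          have hx : (x : ℂ) = -(t1 * t2 + t1 * t3 + t1 * t4 + t2 * t3 + t2 * t4 +
            t3 * t4) / 6 := by linear_combination (1 / 6 : ℂ) * hx6
          have hy : (y : ℂ) = (t1 * t2 * t3 + t1 * t2 * t4 + t1 * t3 * t4 + t2 * t3 * t4) / 8 := by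
            linear_combination (-1 / 8 : ℂ) * v3
          have h2 : ((n ^ 2 * (n ^ 2 - 3 * x) ^ 2 - 2 * (n ^ 2 - 3 * x) ^ 3 - 16 * n ^ 3 * y +
              36 * n * (n ^ 2 - 3 * x) * y - 108 * y ^ 2 : ℤ) : ℂ) =
              ((t2 - t3) * (t2 - t4) * (t3 - t4)) ^ 2 / 16 := by
            push_cast
            rw [hnt, hx, hy, h1]
            ring
          have h3 : ‖((t2 - t3) * (t2 - t4) * (t3 - t4)) ^ 2 / 16‖ < 1 := by
            rw [norm_div, norm_pow, norm_mul, norm_mul]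
            have h4 : ‖t2 - t3‖ * ‖t2 - t4‖ * ‖t3 - t4‖ ≤ 1 * 1 * 1 := by
              have c1 := h23.trans hδ1.le
              have c2 := h24.trans hδ1.le
              have c3 := h34.trans hδ1.le
              gcongr
            have h5 : (‖t2 - t3‖ * ‖t2 - t4‖ * ‖t3 - t4‖) ^ 2 ≤ 1 := by
              apply pow_le_one₀ (by positivity)
              linarith
            have h6 : ‖(16 : ℂ)‖ = 16 := by norm_num
            rw [h6, div_lt_one (by norm_num)]
            linarith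
          have h7 := int_zero h2 h3
          have h8 : ((t2 - t3) * (t2 - t4) * (t3 - t4)) ^ 2 = 0 := by
            linear_combination 16 * h7
          have h9 := pow_eq_zero_iff (two_ne_zero) |>.1 h8
          rcases mul_eq_zero.1 h9 with h9 | h9
          · rcases mul_eq_zero.1 h9 with h9 | h9
            · exact t23 (sub_eq_zero.1 h9)
            · exact t24 (sub_eq_zero.1 h9)
          · exact t34 (sub_eq_zero.1 h9)
        · exact hcl n t2 t3 t4 b2 h23 h24 t23 t24 t12 (sub_eq_zero.1 hn)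
            (by linear_combination (-3 * t2 ^ 2) * v1 + (2 * t2) * v2 - v3)
      · exact hcl n t3 t2 t4 b3 (by rw [norm_sub_rev]; exact h23) h34 t23.symm t34 t13
          (sub_eq_zero.1 hn)
          (by linear_combination (-3 * t3 ^ 2) * v1 + (2 * t3) * v2 - v3)
    · exact hcl n t4 t2 t3 b4 (by rw [norm_sub_rev]; exact h24) (by rw [norm_sub_rev]; exact h34)
        t24.symm t34.symm t14 (sub_eq_zero.1 hn)
        (by linear_combination (-3 * t4 ^ 2) * v1 + (2 * t4) * v2 - v3)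
  -- irreducibility
  have hmon := gq_monic A x y
  rw [hmon.irreducible_iff_natDegree']
  refine ⟨?_, fun f g hf hg hfg hdeg => ?_⟩
  · intro h
    have := gq_natDegree A x y
    rw [h, natDegree_one] at this
    omega
  · rw [gq_natDegree, Finset.mem_Ioc] at hdeg
    obtain ⟨hd1, hd2⟩ := hdeg
    have hsum : f.natDegree + g.natDegree = 4 := by
      rw [← hf.natDegree_mul hg, hfg, gq_natDegree]
    have hval : ∀ T : ℂ, aeval T f * aeval T g = (T - t1) * (T - t2) * (T - t3) * (T - t4) := by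
      intro T
      rw [← map_mul, hfg, gq_aeval, hT]
    have hcases : g.natDegree = 1 ∨ g.natDegree = 2 := by omega
    rcases hcases with h1 | h2
    · have hg' := hg.eq_X_add_C h1
      apply hroot (-g.coeff 0)
      rw [← hval]
      have : aeval (((-g.coeff 0 : ℤ)) : ℂ) g = 0 := by
        rw [hg']
        simp
      rw [this, mul_zero]
    · have hf2 : f.natDegree = 2 := by omega
      have hev : ∀ (p : ℤ[X]), p.Monic → p.natDegree = 2 → ∀ T : ℂ,
          aeval T p = T ^ 2 + (p.coeff 1 : ℂ) * T + (p.coeff 0 : ℂ) := by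
        intro p hp hp2 T
        have hc : p.coeff 2 = 1 := by
          have := hp.coeff_natDegree
          rw [hp2] at this
          exact this
        rw [aeval_eq_sum_range, hp2, Finset.sum_range_succ, Finset.sum_range_succ,
          Finset.sum_range_one, hc]
        simp only [pow_zero, pow_one, zsmul_eq_mul, mul_one, Int.cast_one, one_mul]
        ring
      have c23 : ‖t2 - t3‖ < 1 := lt_of_le_of_lt h23 hδ1
      have c24 : ‖t2 - t4‖ < 1 := lt_of_le_of_lt h24 hδ1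
      have c34 : ‖t3 - t4‖ < 1 := lt_of_le_of_lt h34 hδ1
      have w2 : aeval t2 f * aeval t2 g = 0 := by rw [hval]; ring
      have w3 : aeval t3 f * aeval t3 g = 0 := by rw [hval]; ring
      have w4 : aeval t4 f * aeval t4 g = 0 := by rw [hval]; ring
      rw [hev f hf hf2, hev g hg h2] at w2 w3 w4
      rcases mul_eq_zero.1 w2 with w2 | w2
      · rcases mul_eq_zero.1 w3 with w3 | w3
        · exact noquad t23 c23 w2 w3
        · rcases mul_eq_zero.1 w4 with w4 | w4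
          · exact noquad t24 c24 w2 w4
          · exact noquad t34 c34 w3 w4
      · rcases mul_eq_zero.1 w3 with w3 | w3
        · rcases mul_eq_zero.1 w4 with w4 | w4
          · exact noquad t34 c34 w3 w4
          · exact noquad t24 c24 w2 w4
        · exact noquad t23 c23 w2 w3

end SQ55
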