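import Mathlib

/-!
The roots of `T^4 - 6 x T^2 - 8 y T - 3 x^2 - 4 A` for a point `y^2 = x^3 + A x + B`, `x` large.
-/

set_option autoImplicit false

namespace SQ55

/-- the roots of the cubic -/
theorem cubic_roots (a b : ℂ) : ∃ e1 e2 e3 : ℂ, e1 + e2 + e3 = 0 ∧
    e1 * e2 + e1 * e3 + e2 * e3 = a ∧ e1 * e2 * e3 = -b := by
  obtain ⟨e1, h1⟩ : ∃ e1 : ℂ, e1 ^ 3 + a * e1 + b = 0 := by
    have hdeg : (Polynomial.X ^ 3 + Polynomial.C a * Polynomial.X + Polynomial.C b :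
        Polynomial ℂ).degree = 3 := by
      compute_degree!
    obtain ⟨z, hz⟩ := IsAlgClosed.exists_root (Polynomial.X ^ 3 + Polynomial.C a * Polynomial.X +
      Polynomial.C b : Polynomial ℂ) (by rw [hdeg]; decide)
    refine ⟨z, ?_⟩
    simpa [Polynomial.IsRoot] using hz
  obtain ⟨s, hs⟩ : ∃ s : ℂ, s ^ 2 = e1 ^ 2 - 4 * (e1 ^ 2 + a) :=
    IsAlgClosed.exists_pow_nat_eq _ (by norm_num)
  refine ⟨e1, (-e1 + s) / 2, (-e1 - s) / 2, by ring, ?_, ?_⟩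
  · linear_combination (-1 / 4 : ℂ) * hs
  · linear_combination h1 - (e1 / 4) * hs

/-- the size of the roots -/
theorem cubic_size {A B : ℤ} {R : ℝ} (hR : R = 1 + |(A : ℝ)| + |(B : ℝ)|) {e : ℂ}
    (he : e ^ 3 + A * e + B = 0) : ‖e‖ ≤ R := by
  by_contra hcon
  push Not at hcon
  have hA := abs_nonneg (A : ℝ)
  have hB := abs_nonneg (B : ℝ)
  have h1 : 1 < ‖e‖ := by linarith
  have h2 : e ^ 3 = -(A * e + B) := by linear_combination he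
  have h3 : ‖e‖ ^ 3 ≤ |(A : ℝ)| * ‖e‖ + |(B : ℝ)| := by
    rw [← norm_pow, h2, norm_neg]
    refine (norm_add_le _ _).trans ?_
    rw [norm_mul, Complex.norm_intCast, Complex.norm_intCast]
  have h4 : R * ‖e‖ < ‖e‖ ^ 3 := by
    calc R * ‖e‖ < ‖e‖ * ‖e‖ := by gcongr
      _ = ‖e‖ ^ 2 * 1 := by ring
      _ ≤ ‖e‖ ^ 2 * ‖e‖ := by gcongr
      _ = ‖e‖ ^ 3 := by ring
  have h5 : |(B : ℝ)| ≤ |(B : ℝ)| * ‖e‖ := le_mul_of_one_le_right hB h1.le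
  nlinarith

/-- square roots near `r` -/
theorem near_sqrt {r R : ℝ} (hr : 0 < r) {e : ℂ} (he : ‖e‖ ≤ R) :
    ∃ s : ℂ, s ^ 2 = (r : ℂ) ^ 2 - e ∧ ‖s - r‖ ≤ R / r := by
  obtain ⟨s0, hs0⟩ : ∃ s : ℂ, s ^ 2 = (r : ℂ) ^ 2 - e := IsAlgClosed.exists_pow_nat_eq _ (by norm_num)
  obtain ⟨s, hs, hre⟩ : ∃ s : ℂ, s ^ 2 = (r : ℂ) ^ 2 - e ∧ 0 ≤ s.re := by
    rcases le_total 0 s0.re with h | h
    · exact ⟨s0, hs0, h⟩
    · refine ⟨-s0, by rw [neg_sq]; exact hs0, ?_⟩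
      rw [Complex.neg_re]
      linarith
  refine ⟨s, hs, ?_⟩
  have h1 : r ≤ ‖s + r‖ := by
    refine le_trans ?_ (Complex.re_le_norm _)
    rw [Complex.add_re, Complex.ofReal_re]
    linarith
  have h2 : (s - r) * (s + r) = -e := by linear_combination hs
  have h3 : ‖s - r‖ * ‖s + r‖ ≤ R := by
    rw [← norm_mul, h2, norm_neg]
    exact he
  rw [le_div_iff₀ hr]
  calc ‖s - r‖ * r ≤ ‖s - r‖ * ‖s + r‖ := by gcongr
    _ ≤ R := h3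

/-- The roots of the quartic. -/
theorem quartic_data (A B x y : ℤ) (R r : ℝ) (hR : R = 1 + |(A : ℝ)| + |(B : ℝ)|)
    (hrx : r ^ 2 = (x : ℝ)) (h4 : 4 * R ≤ r) (hy : 0 ≤ y) (hE : y ^ 2 = x ^ 3 + A * x + B) :
    ∃ e1 e2 e3 t1 t2 t3 t4 : ℂ, (e1 + e2 + e3 = 0 ∧ e1 * e2 + e1 * e3 + e2 * e3 = A ∧
      e1 * e2 * e3 = -B) ∧
    (∀ T : ℂ, T ^ 4 - 6 * x * T ^ 2 - 8 * y * T - 3 * x ^ 2 - 4 * A =
      (T - t1) * (T - t2) * (T - t3) * (T - t4)) ∧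
    ((t1 - t2) * (t3 - t4) = 4 * (e3 - e2) ∧ (t1 - t3) * (t4 - t2) = 4 * (e1 - e3) ∧
      (t1 - t4) * (t2 - t3) = 4 * (e2 - e1)) ∧
    ((3 * r ≤ ‖t1 - t2‖ ∧ ‖t1 - t2‖ ≤ 5 * r) ∧ (3 * r ≤ ‖t1 - t3‖ ∧ ‖t1 - t3‖ ≤ 5 * r) ∧
      (3 * r ≤ ‖t1 - t4‖ ∧ ‖t1 - t4‖ ≤ 5 * r)) ∧
    ‖t2 - t3‖ ≤ 4 * R / r ∧ ‖t2 - t4‖ ≤ 4 * R / r ∧ ‖t3 - t4‖ ≤ 4 * R / r := by
  have hA := abs_nonneg (A : ℝ)
  have hB := abs_nonneg (B : ℝ)
  have hR1 : 1 ≤ R := by linarith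
  have hr4 : 4 ≤ r := by linarith
  have hr0 : 0 < r := by linarith
  obtain ⟨e1, e2, e3, k1, k2, k3⟩ := cubic_roots (A : ℂ) (B : ℂ)
  have z1 : e1 ^ 3 + A * e1 + B = 0 := by
    have : (A : ℂ) = e1 * e2 + e1 * e3 + e2 * e3 := k2.symm
    have h3 : (B : ℂ) = -(e1 * e2 * e3) := by rw [k3]; ring
    rw [this, h3]
    linear_combination e1 ^ 2 * k1
  have z2 : e2 ^ 3 + A * e2 + B = 0 := by
    have : (A : ℂ) = e1 * e2 + e1 * e3 + e2 * e3 := k2.symm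
    have h3 : (B : ℂ) = -(e1 * e2 * e3) := by rw [k3]; ring
    rw [this, h3]
    linear_combination e2 ^ 2 * k1
  have z3 : e3 ^ 3 + A * e3 + B = 0 := by
    have : (A : ℂ) = e1 * e2 + e1 * e3 + e2 * e3 := k2.symm
    have h3 : (B : ℂ) = -(e1 * e2 * e3) := by rw [k3]; ring
    rw [this, h3]
    linear_combination e3 ^ 2 * k1
  have n1 := cubic_size hR z1
  have n2 := cubic_size hR z2
  have n3 := cubic_size hR z3
  obtain ⟨s1, q1, d1⟩ := near_sqrt hr0 n1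
  obtain ⟨s2, q2, d2⟩ := near_sqrt hr0 n2
  obtain ⟨s3, q3, d3⟩ := near_sqrt hr0 n3
  have hδ : R / r ≤ 1 / 4 := by
    rw [div_le_iff₀ hr0]
    linarith
  have hδ0 : 0 ≤ R / r := by positivity
  have hrC : (r : ℂ) ^ 2 = (x : ℂ) := by
    have : ((r ^ 2 : ℝ) : ℂ) = ((x : ℝ) : ℂ) := by rw [hrx]
    push_cast at this
    exact this
  rw [hrC] at q1 q2 q3
  have hEC : (y : ℂ) ^ 2 = (x : ℂ) ^ 3 + A * x + B := by exact_mod_cast hE
  -- the product of the square roots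
  have hprod2 : (s1 * s2 * s3) ^ 2 = (y : ℂ) ^ 2 := by
    have h1 : (s1 * s2 * s3) ^ 2 = s1 ^ 2 * s2 ^ 2 * s3 ^ 2 := by ring
    rw [h1, q1, q2, q3, hEC]
    linear_combination (-(x : ℂ) ^ 2) * k1 + (x : ℂ) * k2 - k3
  have hprod : s1 * s2 * s3 = y := by
    rcases sq_eq_sq_iff_eq_or_eq_neg.1 hprod2 with h | h
    · exact h
    · exfalso
      obtain ⟨u1, hu1⟩ : ∃ u1, u1 = s1 - r := ⟨_, rfl⟩
      obtain ⟨u2, hu2⟩ : ∃ u2, u2 = s2 - r := ⟨_, rfl⟩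
      obtain ⟨u3, hu3⟩ : ∃ u3, u3 = s3 - r := ⟨_, rfl⟩
      rw [← hu1] at d1
      rw [← hu2] at d2
      rw [← hu3] at d3
      have d1' := d1.trans hδ
      have d2' := d2.trans hδ
      have d3' := d3.trans hδ
      have e4 : s1 * s2 * s3 - (r : ℂ) ^ 3 = (r : ℂ) ^ 2 * u1 + (r : ℂ) ^ 2 * u2 +
          (r : ℂ) ^ 2 * u3 + r * (u1 * u2) + r * (u1 * u3) + r * (u2 * u3) + u1 * u2 * u3 := by
        rw [hu1, hu2, hu3]
        ring
      have e5 : ‖s1 * s2 * s3 - (r : ℂ) ^ 3‖ ≤ r ^ 2 * (1 / 4) + r ^ 2 * (1 / 4) +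
          r ^ 2 * (1 / 4) + r * (1 / 4 * (1 / 4)) + r * (1 / 4 * (1 / 4)) +
          r * (1 / 4 * (1 / 4)) + 1 / 4 * (1 / 4) * (1 / 4) := by
        rw [e4]
        have hrn : ‖(r : ℂ)‖ = r := by rw [Complex.norm_real, Real.norm_of_nonneg hr0.le]
        refine (norm_add_le _ _).trans (add_le_add ((norm_add_le _ _).trans (add_le_add
          ((norm_add_le _ _).trans (add_le_add ((norm_add_le _ _).trans (add_le_add
          ((norm_add_le _ _).trans (add_le_add ((norm_add_le _ _).trans (add_le_add ?_ ?_)) ?_))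
          ?_)) ?_)) ?_)) ?_)
        · rw [norm_mul, norm_pow, hrn]; gcongr
        · rw [norm_mul, norm_pow, hrn]; gcongr
        · rw [norm_mul, norm_pow, hrn]; gcongr
        · rw [norm_mul, norm_mul, hrn]; gcongr
        · rw [norm_mul, norm_mul, hrn]; gcongr
        · rw [norm_mul, norm_mul, hrn]; gcongr
        · rw [norm_mul, norm_mul]; gcongr
      have e6 : r ^ 3 ≤ ‖s1 * s2 * s3 - (r : ℂ) ^ 3‖ := by
        rw [h]
        have h7 : (-(y : ℂ) - (r : ℂ) ^ 3) = ((-((y : ℝ) + r ^ 3) : ℝ) : ℂ) := by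
          push_cast
          ring
        rw [h7, Complex.norm_real, Real.norm_eq_abs, abs_neg]
        have hyR : (0 : ℝ) ≤ y := by exact_mod_cast hy
        rw [abs_of_nonneg (by positivity)]
        linarith
      have e7 : r ^ 3 ≥ 4 * r ^ 2 := by
        calc 4 * r ^ 2 ≤ r * r ^ 2 := by gcongr
          _ = r ^ 3 := by ring
      nlinarith
  -- the data
  have sums : ∀ {a b : ℂ}, ‖a - r‖ ≤ R / r → ‖b - r‖ ≤ R / r → 3 * r ≤ ‖2 * (a + b)‖ ∧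
      ‖2 * (a + b)‖ ≤ 5 * r ∧ r ≤ ‖a + b‖ := by
    intro a b ha hb
    have h1 : a + b = (2 * r : ℂ) + ((a - r) + (b - r)) := by ring
    have h2 : ‖(a - r) + (b - r)‖ ≤ 1 / 2 := (norm_add_le _ _).trans (by linarith)
    have h3 : ‖(2 * r : ℂ)‖ = 2 * r := by
      rw [norm_mul, Complex.norm_real, Real.norm_of_nonneg hr0.le]
      norm_num
    have h4 : ‖a + b‖ ≤ 2 * r + 1 / 2 := by
      rw [h1]
      refine (norm_add_le _ _).trans ?_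
      rw [h3]
      linarith
    have h5 : 2 * r - 1 / 2 ≤ ‖a + b‖ := by
      rw [h1]
      have := norm_sub_le_norm_add (2 * r : ℂ) ((a - r) + (b - r))
      rw [h3] at this
      linarith
    have h6 : ‖2 * (a + b)‖ = 2 * ‖a + b‖ := by
      rw [norm_mul]
      norm_num
    rw [h6]
    refine ⟨by linarith, by linarith, by linarith⟩
  have diffs : ∀ {a b e f : ℂ}, ‖a - r‖ ≤ R / r → ‖b - r‖ ≤ R / r → a ^ 2 = x - e →
      b ^ 2 = x - f → ‖e‖ ≤ R → ‖f‖ ≤ R → ‖2 * (a - b)‖ ≤ 4 * R / r := by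
    intro a b e f ha hb hae hbf he hf
    obtain ⟨-, -, h1⟩ := sums ha hb
    have h2 : (a - b) * (a + b) = f - e := by linear_combination hae - hbf
    have h3 : ‖a - b‖ * ‖a + b‖ ≤ 2 * R := by
      rw [← norm_mul, h2]
      refine (norm_sub_le _ _).trans ?_
      linarith
    have h4 : ‖a - b‖ * r ≤ 2 * R := by
      refine le_trans ?_ h3
      gcongr
    have h6 : ‖2 * (a - b)‖ = 2 * ‖a - b‖ := by
      rw [norm_mul]
      norm_num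
    rw [h6, le_div_iff₀ hr0]
    linarith
  refine ⟨e1, e2, e3, s1 + s2 + s3, s1 - s2 - s3, -s1 + s2 - s3, -s1 - s2 + s3,
    ⟨k1, k2, k3⟩, ?_, ⟨?_, ?_, ?_⟩, ⟨⟨?_, ?_⟩, ⟨?_, ?_⟩, ⟨?_, ?_⟩⟩, ?_, ?_, ?_⟩
  · intro T
    have hx3 : 3 * (x : ℂ) = s1 ^ 2 + s2 ^ 2 + s3 ^ 2 := by
      rw [q1, q2, q3]
      linear_combination k1
    have hpp : 3 * (x : ℂ) ^ 2 + A = s1 ^ 2 * s2 ^ 2 + s1 ^ 2 * s3 ^ 2 + s2 ^ 2 * s3 ^ 2 := by
      rw [q1, q2, q3]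
      linear_combination 2 * x * k1 - k2
    have h1 : T ^ 4 - 6 * x * T ^ 2 - 8 * y * T - 3 * x ^ 2 - 4 * A =
        T ^ 4 - 2 * (3 * (x : ℂ)) * T ^ 2 - 8 * y * T + (3 * (x : ℂ)) ^ 2 -
          4 * (3 * (x : ℂ) ^ 2 + A) := by ring
    rw [h1, hx3, hpp, ← hprod]
    ring
  · linear_combination 4 * q2 - 4 * q3
  · linear_combination 4 * q3 - 4 * q1
  · linear_combination 4 * q1 - 4 * q2
  · have : s1 + s2 + s3 - (s1 - s2 - s3) = 2 * (s2 + s3) := by ring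
    rw [this]; exact (sums d2 d3).1
  · have : s1 + s2 + s3 - (s1 - s2 - s3) = 2 * (s2 + s3) := by ring
    rw [this]; exact (sums d2 d3).2.1
  · have : s1 + s2 + s3 - (-s1 + s2 - s3) = 2 * (s1 + s3) := by ring
    rw [this]; exact (sums d1 d3).1
  · have : s1 + s2 + s3 - (-s1 + s2 - s3) = 2 * (s1 + s3) := by ring
    rw [this]; exact (sums d1 d3).2.1
  · have : s1 + s2 + s3 - (-s1 - s2 + s3) = 2 * (s1 + s2) := by ring
    rw [this]; exact (sums d1 d2).1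
  · have : s1 + s2 + s3 - (-s1 - s2 + s3) = 2 * (s1 + s2) := by ring
    rw [this]; exact (sums d1 d2).2.1
  · have : s1 - s2 - s3 - (-s1 + s2 - s3) = 2 * (s1 - s2) := by ring
    rw [this]; exact diffs d1 d2 q1 q2 n1 n2
  · have : s1 - s2 - s3 - (-s1 - s2 + s3) = 2 * (s1 - s3) := by ring
    rw [this]; exact diffs d1 d3 q1 q3 n1 n3
  · have : -s1 + s2 - s3 - (-s1 - s2 + s3) = 2 * (s2 - s3) := by ring
    rw [this]; exact diffs d2 d3 q2 q3 n2 n3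

end SQ55
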