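import Pool.Agent.LibSQ55.Q2
import Pool.Agent.LibST91.Defs

/-!
The ratio of two differences of roots of the cubic.
-/

set_option autoImplicit false

open Polynomial

namespace SQ55

/-- the three roots of a cubic -/
def CR (A B : ℤ) (e1 e2 e3 : ℂ) : Prop :=
  e1 + e2 + e3 = 0 ∧ e1 * e2 + e1 * e3 + e2 * e3 = A ∧ e1 * e2 * e3 = -B

theorem CR.size {A B : ℤ} {e1 e2 e3 : ℂ} (h : CR A B e1 e2 e3) :
    ‖e1‖ ≤ 1 + |(A : ℝ)| + |(B : ℝ)| ∧ ‖e2‖ ≤ 1 + |(A : ℝ)| + |(B : ℝ)| ∧
      ‖e3‖ ≤ 1 + |(A : ℝ)| + |(B : ℝ)| := by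
  obtain ⟨k1, k2, k3⟩ := h
  have h2 : (A : ℂ) = e1 * e2 + e1 * e3 + e2 * e3 := k2.symm
  have h3 : (B : ℂ) = -(e1 * e2 * e3) := by rw [k3]; ring
  refine ⟨cubic_size (A := A) (B := B) rfl ?_, cubic_size (A := A) (B := B) rfl ?_,
    cubic_size (A := A) (B := B) rfl ?_⟩
  · rw [h2, h3]
    linear_combination e1 ^ 2 * k1
  · rw [h2, h3]
    linear_combination e2 ^ 2 * k1
  · rw [h2, h3]
    linear_combination e3 ^ 2 * k1

/-- the differences of the roots -/
theorem CR.diffs {A B : ℤ} {e1 e2 e3 : ℂ} (h : CR A B e1 e2 e3) (hΔ : 4 * A ^ 3 + 27 * B ^ 2 ≠ 0)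
    {R : ℝ} (hR : R = 1 + |(A : ℝ)| + |(B : ℝ)|) :
    (e1 - e2 ≠ 0 ∧ e1 - e3 ≠ 0 ∧ e2 - e3 ≠ 0) ∧ |Real.log ‖e1 - e2‖| ≤ 2 * Real.log (2 * R) ∧
      |Real.log ‖e1 - e3‖| ≤ 2 * Real.log (2 * R) := by
  obtain ⟨s1, s2, s3⟩ := h.size
  rw [← hR] at s1 s2 s3
  obtain ⟨k1, k2, k3⟩ := h
  have hd := disc_e k1 k2 k3
  have hA := abs_nonneg (A : ℝ)
  have hB := abs_nonneg (B : ℝ)
  have hR1 : 1 ≤ R := by linarith
  have hΔC : -(4 * (A : ℂ) ^ 3 + 27 * (B : ℂ) ^ 2) ≠ 0 := by
    have : ((4 * A ^ 3 + 27 * B ^ 2 : ℤ) : ℂ) ≠ 0 := by exact_mod_cast hΔ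
    push_cast at this
    exact neg_ne_zero.2 this
  have hn1 : 1 ≤ ‖-(4 * (A : ℂ) ^ 3 + 27 * (B : ℂ) ^ 2)‖ := by
    have h1 : -(4 * (A : ℂ) ^ 3 + 27 * (B : ℂ) ^ 2) = ((-(4 * A ^ 3 + 27 * B ^ 2) : ℤ) : ℂ) := by
      push_cast
      ring
    rw [h1, Complex.norm_intCast]
    have := Int.one_le_abs (neg_ne_zero.2 hΔ)
    exact_mod_cast this
  rw [← hd] at hΔC hn1
  have n12 : e1 - e2 ≠ 0 := by
    intro h0
    apply hΔC
    rw [h0]
    ring
  have n13 : e1 - e3 ≠ 0 := by
    intro h0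
    apply hΔC
    rw [h0]
    ring
  have n23 : e2 - e3 ≠ 0 := by
    intro h0
    apply hΔC
    rw [h0]
    ring
  have u12 : ‖e1 - e2‖ ≤ 2 * R := (norm_sub_le _ _).trans (by linarith)
  have u13 : ‖e1 - e3‖ ≤ 2 * R := (norm_sub_le _ _).trans (by linarith)
  have u23 : ‖e2 - e3‖ ≤ 2 * R := (norm_sub_le _ _).trans (by linarith)
  have p12 : 0 < ‖e1 - e2‖ := norm_pos_iff.2 n12
  have p13 : 0 < ‖e1 - e3‖ := norm_pos_iff.2 n13
  have p23 : 0 < ‖e2 - e3‖ := norm_pos_iff.2 n23
  rw [norm_mul, norm_mul, norm_pow, norm_pow, norm_pow] at hn1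
  have h1 : 1 ≤ ‖e1 - e2‖ * ‖e1 - e3‖ * ‖e2 - e3‖ := by
    by_contra hc
    push Not at hc
    have h2 : (‖e1 - e2‖ * ‖e1 - e3‖ * ‖e2 - e3‖) ^ 2 < 1 :=
      pow_lt_one₀ (by positivity) hc (by norm_num)
    have h3 : (‖e1 - e2‖ * ‖e1 - e3‖ * ‖e2 - e3‖) ^ 2 =
        ‖e1 - e2‖ ^ 2 * ‖e1 - e3‖ ^ 2 * ‖e2 - e3‖ ^ 2 := by ring
    rw [h3] at h2
    linarith
  have hlog : 0 ≤ Real.log (2 * R) := Real.log_nonneg (by linarith)
  have hl : 0 ≤ Real.log ‖e1 - e2‖ + Real.log ‖e1 - e3‖ + Real.log ‖e2 - e3‖ := by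
    rw [← Real.log_mul p12.ne' p13.ne', ← Real.log_mul (by positivity) p23.ne']
    exact Real.log_nonneg h1
  have l12 := Real.log_le_log p12 u12
  have l13 := Real.log_le_log p13 u13
  have l23 := Real.log_le_log p23 u23
  refine ⟨⟨n12, n13, n23⟩, ?_, ?_⟩
  · rw [abs_le]
    constructor <;> linarith
  · rw [abs_le]
    constructor <;> linarith

/-- a field containing two algebraic numbers -/
theorem two_field {e1 e2 : ℂ} (p : ℚ[X]) (hp : p.Monic) (hp3 : p.natDegree = 3)
    (h1 : aeval e1 p = 0) (h2 : aeval e2 p = 0) :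
    ∃ (F : Type) (_ : Field F) (_ : NumberField F) (ι : F →+* ℂ) (a b : F),
      Module.finrank ℚ F ≤ 9 ∧ ι a = e1 ∧ ι b = e2 := by
  obtain ⟨F, iF, iA, ι, a, b, hf, hr, ha, hb⟩ : ∃ (F : Type) (_ : Field F) (_ : Algebra ℚ F)
      (ι : F →+* ℂ) (a b : F), FiniteDimensional ℚ F ∧ Module.finrank ℚ F ≤ 9 ∧ ι a = e1 ∧
      ι b = e2 := by
    have i1 : IsIntegral ℚ e1 := ⟨p, hp, by rw [← aeval_def]; exact h1⟩
    have i2 : IsIntegral ℚ e2 := ⟨p, hp, by rw [← aeval_def]; exact h2⟩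
    have f1 := IntermediateField.adjoin.finiteDimensional i1
    have f2 := IntermediateField.adjoin.finiteDimensional i2
    have r1 : Module.finrank ℚ (IntermediateField.adjoin ℚ {e1}) ≤ 3 := by
      rw [IntermediateField.adjoin.finrank i1, ← hp3]
      exact natDegree_le_natDegree (minpoly.min ℚ e1 hp h1)
    have r2 : Module.finrank ℚ (IntermediateField.adjoin ℚ {e2}) ≤ 3 := by
      rw [IntermediateField.adjoin.finrank i2, ← hp3]
      exact natDegree_le_natDegree (minpoly.min ℚ e2 hp h2)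
    refine ⟨↥(IntermediateField.adjoin ℚ {e1} ⊔ IntermediateField.adjoin ℚ {e2}), inferInstance,
      inferInstance, (IntermediateField.val _).toRingHom,
      ⟨e1, ?_⟩, ⟨e2, ?_⟩, inferInstance, ?_, rfl, rfl⟩
    · exact (le_sup_left : IntermediateField.adjoin ℚ {e1} ≤ _)
        (IntermediateField.mem_adjoin_simple_self ℚ e1)
    · exact (le_sup_right : IntermediateField.adjoin ℚ {e2} ≤ _)
        (IntermediateField.mem_adjoin_simple_self ℚ e2)
    · refine (IntermediateField.finrank_sup_le _ _).trans ?_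
      calc Module.finrank ℚ (IntermediateField.adjoin ℚ {e1}) *
            Module.finrank ℚ (IntermediateField.adjoin ℚ {e2}) ≤ 3 * 3 := Nat.mul_le_mul r1 r2
        _ = 9 := by norm_num
  have hc : CharZero F := charZero_of_injective_algebraMap (algebraMap ℚ F).injective
  have hA : iA = DivisionRing.toRatAlgebra := Subsingleton.elim _ _
  subst hA
  have hnf : NumberField F := { }
  exact ⟨F, iF, hnf, ι, a, b, hr, ha, hb⟩

open Pool.Agent.LibST91 in
/-- The data of the ratio `(e1 - e3) / (e2 - e1)`. -/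
theorem adm_ratio {A B : ℤ} {e1 e2 e3 : ℂ} (h : CR A B e1 e2 e3) (hΔ : 4 * A ^ 3 + 27 * B ^ 2 ≠ 0)
    {L : ℝ} (hL : L = Real.log (2 + |(A : ℝ)| + |(B : ℝ)|)) :
    ∃ (F : Type) (_ : Field F) (_ : NumberField F) (ι : F →+* ℂ) (c : F) (ℓ : ℂ),
      Module.finrank ℚ F ≤ 9 ∧ ι c = (e1 - e3) / (e2 - e1) ∧ Adm ι c ℓ (13 * L) := by
  obtain ⟨R, hR⟩ : ∃ R, R = 1 + |(A : ℝ)| + |(B : ℝ)| := ⟨_, rfl⟩
  have hA := abs_nonneg (A : ℝ)
  have hB := abs_nonneg (B : ℝ)
  have hR1 : 1 ≤ R := by linarith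
  have hR2 : 2 ≤ R := by
    have h1 : A ≠ 0 ∨ B ≠ 0 := by
      by_contra hc
      push Not at hc
      apply hΔ
      rw [hc.1, hc.2]
      norm_num
    rcases h1 with h1 | h1
    · have : (1 : ℝ) ≤ |(A : ℝ)| := by exact_mod_cast Int.one_le_abs h1
      linarith
    · have : (1 : ℝ) ≤ |(B : ℝ)| := by exact_mod_cast Int.one_le_abs h1
      linarith
  have hLR : L = Real.log (1 + R) := by rw [hL, hR]; congr 1; ring
  have hlogR : Real.log R ≤ L := by
    rw [hLR]
    exact Real.log_le_log (by linarith) (by linarith)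
  have hL1 : 1 ≤ L := by
    rw [hLR, Real.le_log_iff_exp_le (by linarith)]
    have := Real.exp_one_lt_d9
    linarith
  have hlog2 := Real.log_two_lt_d9
  have hlog2R : Real.log (2 * R) ≤ 2 * L := by
    rw [Real.log_mul (by norm_num) (by linarith)]
    linarith
  -- the polynomial
  have hpm : (X ^ 3 + C (A : ℚ) * X + C (B : ℚ) : ℚ[X]).Monic := by monicity!
  have hp3 : (X ^ 3 + C (A : ℚ) * X + C (B : ℚ) : ℚ[X]).natDegree = 3 := by compute_degree!
  have hval : ∀ z : ℂ, z ^ 3 + A * z + B = 0 →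
      aeval z (X ^ 3 + C (A : ℚ) * X + C (B : ℚ) : ℚ[X]) = 0 := by
    intro z hz
    rw [map_add, map_add, map_mul, map_pow, aeval_X, aeval_C, aeval_C]
    simpa using hz
  obtain ⟨k1, k2, k3⟩ := h
  have h2 : (A : ℂ) = e1 * e2 + e1 * e3 + e2 * e3 := k2.symm
  have h3 : (B : ℂ) = -(e1 * e2 * e3) := by rw [k3]; ring
  have z1 : e1 ^ 3 + A * e1 + B = 0 := by
    rw [h2, h3]
    linear_combination e1 ^ 2 * k1
  have z2 : e2 ^ 3 + A * e2 + B = 0 := by
    rw [h2, h3]
    linear_combination e2 ^ 2 * k1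
  obtain ⟨F, iF, iN, ι, a, b, hr, ha, hb⟩ := two_field _ hpm hp3 (hval e1 z1) (hval e2 z2)
  -- the third root
  obtain ⟨g, hg⟩ : ∃ g : F, g = -a - b := ⟨_, rfl⟩
  have hg3 : ι g = e3 := by
    rw [hg, map_sub, map_neg, ha, hb]
    linear_combination -k1
  have m1 : a + b + g = 0 := by rw [hg]; ring
  have m2 : a * b + a * g + b * g = A := by
    apply ι.injective
    rw [map_add, map_add, map_mul, map_mul, map_mul, ha, hb, hg3, map_intCast]
    exact k2
  have m3 : a * b * g = -B := by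
    apply ι.injective
    rw [map_mul, map_mul, ha, hb, hg3, map_neg, map_intCast]
    exact k3
  have hCR : ∀ σ : F →+* ℂ, CR A B (σ a) (σ b) (σ g) := by
    intro σ
    refine ⟨?_, ?_, ?_⟩
    · rw [← map_add, ← map_add, m1, map_zero]
    · rw [← map_mul, ← map_mul, ← map_mul, ← map_add, ← map_add, m2, map_intCast]
    · rw [← map_mul, ← map_mul, m3, map_neg, map_intCast]
  have hd : (a - b) ^ 2 * (a - g) ^ 2 * (b - g) ^ 2 = -(4 * (A : F) ^ 3 + 27 * (B : F) ^ 2) := by
    apply ι.injective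
    have := disc_e k1 k2 k3
    simp only [map_mul, map_pow, map_sub, map_neg, map_add, map_intCast, map_ofNat, ha, hb, hg3]
    exact this
  have nab : a - b ≠ 0 := by
    intro h0
    have := ((hCR ι).diffs hΔ hR).1.1
    rw [← map_sub, h0, map_zero] at this
    exact this rfl
  have nag : a - g ≠ 0 := by
    intro h0
    have := ((hCR ι).diffs hΔ hR).1.2.1
    rw [← map_sub, h0, map_zero] at this
    exact this rfl
  have nba : b - a ≠ 0 := by
    intro h0
    apply nab
    rw [← neg_sub, h0, neg_zero]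
  have hc0 : (a - g) / (b - a) ≠ 0 := div_ne_zero nag nba
  have hconj : ∀ σ : F →+* ℂ, |Real.log ‖σ ((a - g) / (b - a))‖| ≤ 8 * L := by
    intro σ
    obtain ⟨⟨w1, w2, w3⟩, l1, l2⟩ := (hCR σ).diffs hΔ hR
    have e : σ ((a - g) / (b - a)) = (σ a - σ g) / -(σ a - σ b) := by
      rw [map_div₀, map_sub, map_sub, neg_sub]
    rw [e, norm_div, norm_neg, Real.log_div (norm_ne_zero_iff.2 w2) (norm_ne_zero_iff.2 w1)]
    refine (abs_sub _ _).trans ?_
    linarith
  refine ⟨F, iF, iN, ι, (a - g) / (b - a), Complex.log (ι ((a - g) / (b - a))), hr, ?_, ?_⟩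
  · rw [map_div₀, map_sub, map_sub, ha, hb, hg3]
  · refine ⟨hc0, ?_, by linarith, ?_, fun σ => (hconj σ).trans (by linarith), ?_⟩
    · exact Complex.exp_log ((map_ne_zero ι).2 hc0)
    · have h1 : ‖Complex.log (ι ((a - g) / (b - a)))‖ ≤
          |(Complex.log (ι ((a - g) / (b - a)))).re| +
            |(Complex.log (ι ((a - g) / (b - a)))).im| := Complex.norm_le_abs_re_add_abs_im _
      rw [Complex.log_re, Complex.log_im] at h1
      have h2 := Complex.abs_arg_le_pi (ι ((a - g) / (b - a)))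
      have h3 := hconj ι
      have h4 := Real.pi_lt_four
      linarith
    · refine ⟨(4 * A ^ 3 + 27 * B ^ 2).natAbs, Int.natAbs_pos.2 hΔ, ?_, ?_, ?_⟩
      · -- the size
        have h1 : (((4 * A ^ 3 + 27 * B ^ 2).natAbs : ℕ) : ℝ) = |4 * (A : ℝ) ^ 3 + 27 * (B : ℝ) ^ 2| := by
          rw [Nat.cast_natAbs]
          push_cast
          rfl
        have h2 : |4 * (A : ℝ) ^ 3 + 27 * (B : ℝ) ^ 2| ≤ 31 * R ^ 3 := by
          have h5 : |(A : ℝ)| ≤ R := by linarith
          have h6 : |(B : ℝ)| ≤ R := by linarith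
          refine (abs_add_le _ _).trans ?_
          rw [abs_mul, abs_mul, abs_pow, abs_pow, abs_of_pos (by norm_num : (0 : ℝ) < 4),
            abs_of_pos (by norm_num : (0 : ℝ) < 27)]
          have h7 : R ^ 2 ≤ R ^ 3 := pow_le_pow_right₀ hR1 (by norm_num)
          calc 4 * |(A : ℝ)| ^ 3 + 27 * |(B : ℝ)| ^ 2 ≤ 4 * R ^ 3 + 27 * R ^ 2 := by gcongr
            _ ≤ 31 * R ^ 3 := by linarith
        rw [h1]
        have h8 : (1 : ℝ) ≤ |4 * (A : ℝ) ^ 3 + 27 * (B : ℝ) ^ 2| := by
          have := Int.one_le_abs hΔ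
          exact_mod_cast this
        calc Real.log |4 * (A : ℝ) ^ 3 + 27 * (B : ℝ) ^ 2| ≤ Real.log (31 * R ^ 3) :=
              Real.log_le_log (by linarith) h2
          _ = Real.log 31 + 3 * Real.log R := by
              rw [Real.log_mul (by norm_num) (by positivity), Real.log_pow]
              norm_num
          _ ≤ 5 * Real.log 2 + 3 * L := by
              have h9 : Real.log 31 ≤ Real.log (2 ^ 5) := Real.log_le_log (by norm_num) (by norm_num)
              rw [Real.log_pow] at h9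
              push_cast at h9
              linarith
          _ ≤ 13 * L := by linarith
      · -- integrality
        have ia : IsIntegral ℤ a := by
          refine ⟨X ^ 3 + C A * X + C B, by monicity!, ?_⟩
          simp only [eval₂_add, eval₂_mul, eval₂_pow, eval₂_X, eval₂_C, algebraMap_int_eq]
          simp only [eq_intCast]
          have h5 : (A : F) = a * b + a * g + b * g := m2.symm
          have h6 : (B : F) = -(a * b * g) := by rw [m3]; ring
          rw [h5, h6]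
          linear_combination a ^ 2 * m1
        have ib : IsIntegral ℤ b := by
          refine ⟨X ^ 3 + C A * X + C B, by monicity!, ?_⟩
          simp only [eval₂_add, eval₂_mul, eval₂_pow, eval₂_X, eval₂_C, algebraMap_int_eq]
          simp only [eq_intCast]
          have h5 : (A : F) = a * b + a * g + b * g := m2.symm
          have h6 : (B : F) = -(a * b * g) := by rw [m3]; ring
          rw [h5, h6]
          linear_combination b ^ 2 * m1
        have ig : IsIntegral ℤ g := by rw [hg]; exact ia.neg.sub ib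
        have key : IsIntegral ℤ (-((b - a) * (a - g) ^ 2 * (b - g) ^ 2) * (a - g)) :=
          ((((ib.sub ia).mul ((ia.sub ig).pow 2)).mul ((ib.sub ig).pow 2)).neg).mul (ia.sub ig)
        have hΔF : ((4 * A ^ 3 + 27 * B ^ 2 : ℤ) : F) * ((a - g) / (b - a)) =
            -((b - a) * (a - g) ^ 2 * (b - g) ^ 2) * (a - g) := by
          push_cast
          have h5 : 4 * (A : F) ^ 3 + 27 * (B : F) ^ 2 =
              -((a - b) ^ 2 * (a - g) ^ 2 * (b - g) ^ 2) := by rw [hd]; ring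
          rw [h5]
          field_simp
          ring
        rcases Int.natAbs_eq (4 * A ^ 3 + 27 * B ^ 2) with h5 | h5
        · have h6 : (((4 * A ^ 3 + 27 * B ^ 2).natAbs : ℕ) : F) =
              ((4 * A ^ 3 + 27 * B ^ 2 : ℤ) : F) := by
            conv_rhs => rw [h5]
            exact (Int.cast_natCast _).symm
          rw [h6, hΔF]
          exact key
        · have h6 : (((4 * A ^ 3 + 27 * B ^ 2).natAbs : ℕ) : F) =
              -((4 * A ^ 3 + 27 * B ^ 2 : ℤ) : F) := by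
            conv_rhs => rw [h5]
            rw [Int.cast_neg, neg_neg]
            exact (Int.cast_natCast _).symm
          rw [h6, neg_mul, hΔF]
          exact key.neg
      · have ia : IsIntegral ℤ a := by
          refine ⟨X ^ 3 + C A * X + C B, by monicity!, ?_⟩
          simp only [eval₂_add, eval₂_mul, eval₂_pow, eval₂_X, eval₂_C, algebraMap_int_eq]
          simp only [eq_intCast]
          have h5 : (A : F) = a * b + a * g + b * g := m2.symm
          have h6 : (B : F) = -(a * b * g) := by rw [m3]; ring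
          rw [h5, h6]
          linear_combination a ^ 2 * m1
        have ib : IsIntegral ℤ b := by
          refine ⟨X ^ 3 + C A * X + C B, by monicity!, ?_⟩
          simp only [eval₂_add, eval₂_mul, eval₂_pow, eval₂_X, eval₂_C, algebraMap_int_eq]
          simp only [eq_intCast]
          have h5 : (A : F) = a * b + a * g + b * g := m2.symm
          have h6 : (B : F) = -(a * b * g) := by rw [m3]; ring
          rw [h5, h6]
          linear_combination b ^ 2 * m1
        have ig : IsIntegral ℤ g := by rw [hg]; exact ia.neg.sub ib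
        have key : IsIntegral ℤ (-((a - b) ^ 2 * (a - g) * (b - g) ^ 2) * (b - a)) :=
          (((((ia.sub ib).pow 2).mul (ia.sub ig)).mul ((ib.sub ig).pow 2)).neg).mul (ib.sub ia)
        have hΔF : ((4 * A ^ 3 + 27 * B ^ 2 : ℤ) : F) * ((a - g) / (b - a))⁻¹ =
            -((a - b) ^ 2 * (a - g) * (b - g) ^ 2) * (b - a) := by
          push_cast
          have h5 : 4 * (A : F) ^ 3 + 27 * (B : F) ^ 2 =
              -((a - b) ^ 2 * (a - g) ^ 2 * (b - g) ^ 2) := by rw [hd]; ring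
          rw [h5, inv_div]
          field_simp
        rcases Int.natAbs_eq (4 * A ^ 3 + 27 * B ^ 2) with h5 | h5
        · have h6 : (((4 * A ^ 3 + 27 * B ^ 2).natAbs : ℕ) : F) =
              ((4 * A ^ 3 + 27 * B ^ 2 : ℤ) : F) := by
            conv_rhs => rw [h5]
            exact (Int.cast_natCast _).symm
          rw [h6, hΔF]
          exact key
        · have h6 : (((4 * A ^ 3 + 27 * B ^ 2).natAbs : ℕ) : F) =
              -((4 * A ^ 3 + 27 * B ^ 2 : ℤ) : F) := by
            conv_rhs => rw [h5]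
            rw [Int.cast_neg, neg_neg]
            exact (Int.cast_natCast _).symm
          rw [h6, neg_mul, hΔF]
          exact key.neg

end SQ55
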