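import Pool.Agent.LibSQ55.Q3
import Pool.Agent.LibST91T.TX0
import Pool.Agent.LibST91T.TX2
import Pool.Agent.LibST91T.TX6

/-!
The quartic case.
-/

set_option autoImplicit false

open NumberField Polynomial

namespace SQ55

theorem gq_deriv (A x y : ℤ) (T : ℂ) :
    aeval T (derivative (gq A x y)) = 4 * T ^ 3 - 12 * x * T - 8 * y := by
  have h : derivative (gq A x y) = C 4 * X ^ 3 - C (12 * x) * X - C (8 * y) := by
    unfold gq
    rw [derivative_sub, derivative_sub, derivative_sub, derivative_X_pow, derivative_mul,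
      derivative_C, derivative_X_pow, derivative_mul, derivative_C, derivative_X, derivative_C]
    push_cast
    have : C (12 * x) = C (6 * x) * C 2 := by rw [← C_mul]; congr 1; ring
    rw [this]
    norm_num
    ring
  rw [h, aeval_def]
  simp only [eval₂_sub, eval₂_mul, eval₂_pow, eval₂_X, eval₂_C, algebraMap_int_eq]
  simp only [eq_intCast]
  push_cast
  ring

/-- All the data of a large point. -/
theorem big_data {A B x y : ℤ} {R r : ℝ} (hR : R = 1 + |(A : ℝ)| + |(B : ℝ)|)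
    (hrx : r ^ 2 = (x : ℝ)) (h4 : 100 * R ^ 2 ≤ r) (hy : 0 ≤ y) (hE : y ^ 2 = x ^ 3 + A * x + B)
    (hΔ : 4 * A ^ 3 + 27 * B ^ 2 ≠ 0) :
    ∃ (K : Type) (_ : Field K) (_ : NumberField K) (η : 𝓞 K) (σ τ : K →+* ℂ) (e1 e2 e3 : ℂ),
      CR A B e1 e2 e3 ∧ Module.finrank ℚ K = 4 ∧ η ≠ 0 ∧
      |(discr K : ℝ)| ≤ 4096 * |((4 * A ^ 3 + 27 * B ^ 2 : ℤ) : ℝ)| ∧
      |((Algebra.norm ℤ η : ℤ) : ℝ)| = 4096 * |((4 * A ^ 3 + 27 * B ^ 2 : ℤ) : ℝ)| ∧
      (∀ φ : K →+* ℂ, |Real.log ‖φ (η : K)‖| ≤ 3 * Real.log (5 * r)) ∧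
      (e1 - e3) / (e2 - e1) * σ (η : K) / τ (η : K) ≠ 1 ∧
      ‖(e1 - e3) / (e2 - e1) * σ (η : K) / τ (η : K) - 1‖ ≤ 1 / r := by
  have hA := abs_nonneg (A : ℝ)
  have hB := abs_nonneg (B : ℝ)
  have hR1 : 1 ≤ R := by linarith
  have hRR : R ≤ R ^ 2 := by nlinarith
  have hr4 : 4 * R ≤ r := by linarith
  have hr1 : 100 ≤ r := by nlinarith
  have hr0 : 0 < r := by linarith
  obtain ⟨e1, e2, e3, t1, t2, t3, t4, hCR, hT, ⟨E1, E2, E3⟩, ⟨⟨a2, b2⟩, ⟨a3, b3⟩, ⟨a4, b4⟩⟩,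
    h23, h24, h34⟩ := quartic_data A B x y R r hR hrx hr4 hy hE
  have hCR' : CR A B e1 e2 e3 := hCR
  obtain ⟨δ, hδ⟩ : ∃ δ, δ = 4 * R / r := ⟨_, rfl⟩
  rw [← hδ] at h23 h24 h34
  have hδ0 : 0 ≤ δ := by rw [hδ]; positivity
  have hδ1 : δ < 1 := by
    rw [hδ, div_lt_one hr0]
    linarith
  have hδr : 5 * r * (δ * δ) < 1 := by
    have h1 : 5 * r * (δ * δ) = 80 * R ^ 2 / r := by
      rw [hδ]
      field_simp
      ring
    rw [h1, div_lt_one hr0]
    have : 0 < R ^ 2 := by positivity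
    linarith
  obtain ⟨k1, k2, k3⟩ := hCR
  have hdis := disc_e k1 k2 k3
  obtain ⟨⟨n12, n13, n23⟩, -, -⟩ := hCR'.diffs hΔ hR
  have t34 : t3 - t4 ≠ 0 := by
    intro h0
    apply n23
    rw [h0, mul_zero] at E1
    linear_combination (1 / 4 : ℂ) * E1
  have t24 : t2 - t4 ≠ 0 := by
    intro h0
    apply n13
    have h1 : t4 - t2 = 0 := by linear_combination -h0
    rw [h1, mul_zero] at E2
    linear_combination (-1 / 4 : ℂ) * E2
  have t23 : t2 - t3 ≠ 0 := by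
    intro h0
    apply n12
    rw [h0, mul_zero] at E3
    linear_combination (1 / 4 : ℂ) * E3
  have t12 : t1 - t2 ≠ 0 := by
    intro h0
    rw [h0, norm_zero] at a2
    linarith
  have t13 : t1 - t3 ≠ 0 := by
    intro h0
    rw [h0, norm_zero] at a3
    linarith
  have t14 : t1 - t4 ≠ 0 := by
    intro h0
    rw [h0, norm_zero] at a4
    linarith
  obtain ⟨v1, v2, v3, v4⟩ := vieta4 (p := 6 * x) (q := 8 * y) (s := 3 * x ^ 2 + 4 * A)
    (t1 := t1) (t2 := t2) (t3 := t3) (t4 := t4) (by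
      intro T
      rw [← hT T]
      ring)
  -- the derivatives
  have g1 : aeval t1 (derivative (gq A x y)) = (t1 - t2) * (t1 - t3) * (t1 - t4) := by
    rw [gq_deriv]
    linear_combination (3 * t1 ^ 2) * v1 - (2 * t1) * v2 + v3
  have g2 : aeval t2 (derivative (gq A x y)) = (t2 - t1) * (t2 - t3) * (t2 - t4) := by
    rw [gq_deriv]
    linear_combination (3 * t2 ^ 2) * v1 - (2 * t2) * v2 + v3
  have g3 : aeval t3 (derivative (gq A x y)) = (t3 - t1) * (t3 - t2) * (t3 - t4) := by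
    rw [gq_deriv]
    linear_combination (3 * t3 ^ 2) * v1 - (2 * t3) * v2 + v3
  have g4 : aeval t4 (derivative (gq A x y)) = (t4 - t1) * (t4 - t2) * (t4 - t3) := by
    rw [gq_deriv]
    linear_combination (3 * t4 ^ 2) * v1 - (2 * t4) * v2 + v3
  -- the vector of the roots
  obtain ⟨t, ht⟩ : ∃ t : Fin 4 → ℂ, t = ![t1, t2, t3, t4] := ⟨_, rfl⟩
  have ht0 : t 0 = t1 := by rw [ht]; rfl
  have ht1 : t 1 = t2 := by rw [ht]; rfl
  have ht2 : t 2 = t3 := by rw [ht]; rfl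
  have ht3 : t 3 = t4 := by rw [ht]; rfl
  have hinj : Function.Injective t := by
    have hne : ∀ i j : Fin 4, i < j → t i ≠ t j := by
      intro i j hij
      fin_cases i <;> fin_cases j <;> first | (exfalso; revert hij; decide) | skip
      · show t 0 ≠ t 1
        rw [ht0, ht1]; exact sub_ne_zero.1 t12
      · show t 0 ≠ t 2
        rw [ht0, ht2]; exact sub_ne_zero.1 t13
      · show t 0 ≠ t 3
        rw [ht0, ht3]; exact sub_ne_zero.1 t14
      · show t 1 ≠ t 2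
        rw [ht1, ht2]; exact sub_ne_zero.1 t23
      · show t 1 ≠ t 3
        rw [ht1, ht3]; exact sub_ne_zero.1 t24
      · show t 2 ≠ t 3
        rw [ht2, ht3]; exact sub_ne_zero.1 t34
    intro i j hij
    by_contra hcon
    rcases lt_or_gt_of_ne hcon with h | h
    · exact hne i j h hij
    · exact hne j i h hij.symm
  have hroot : ∀ i, aeval (t i) (gq A x y) = 0 := by
    intro i
    rw [gq_aeval, hT]
    fin_cases i
    · show (t 0 - t1) * (t 0 - t2) * (t 0 - t3) * (t 0 - t4) = 0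
      rw [ht0]; ring
    · show (t 1 - t1) * (t 1 - t2) * (t 1 - t3) * (t 1 - t4) = 0
      rw [ht1]; ring
    · show (t 2 - t1) * (t 2 - t2) * (t 2 - t3) * (t 2 - t4) = 0
      rw [ht2]; ring
    · show (t 3 - t1) * (t 3 - t2) * (t 3 - t3) * (t 3 - t4) = 0
      rw [ht3]; ring
  -- the sizes
  have s2 : ‖(t2 - t1) * (t2 - t3) * (t2 - t4)‖ < 1 := by
    rw [norm_mul, norm_mul, norm_sub_rev t2 t1]
    calc ‖t1 - t2‖ * ‖t2 - t3‖ * ‖t2 - t4‖ ≤ (5 * r) * δ * δ := by gcongr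
      _ = 5 * r * (δ * δ) := by ring
      _ < 1 := hδr
  have s3 : ‖(t3 - t1) * (t3 - t2) * (t3 - t4)‖ < 1 := by
    rw [norm_mul, norm_mul, norm_sub_rev t3 t1, norm_sub_rev t3 t2]
    calc ‖t1 - t3‖ * ‖t2 - t3‖ * ‖t3 - t4‖ ≤ (5 * r) * δ * δ := by gcongr
      _ = 5 * r * (δ * δ) := by ring
      _ < 1 := hδr
  have s4 : ‖(t4 - t1) * (t4 - t2) * (t4 - t3)‖ < 1 := by
    rw [norm_mul, norm_mul, norm_sub_rev t4 t1, norm_sub_rev t4 t2, norm_sub_rev t4 t3]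
    calc ‖t1 - t4‖ * ‖t2 - t4‖ * ‖t3 - t4‖ ≤ (5 * r) * δ * δ := by gcongr
      _ = 5 * r * (δ * δ) := by ring
      _ < 1 := hδr
  have s1 : ‖(t1 - t2) * (t1 - t3) * (t1 - t4)‖ ≤ (5 * r) ^ 3 := by
    rw [norm_mul, norm_mul]
    calc ‖t1 - t2‖ * ‖t1 - t3‖ * ‖t1 - t4‖ ≤ (5 * r) * (5 * r) * (5 * r) := by gcongr
      _ = (5 * r) ^ 3 := by ring
  have hsmall : ∀ i, i ≠ 0 → ‖aeval (t i) (derivative (gq A x y))‖ < 1 := by
    intro i hi
    fin_cases i
    · exact absurd rfl hi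
    · show ‖aeval (t 1) (derivative (gq A x y))‖ < 1
      rw [ht1, g2]; exact s2
    · show ‖aeval (t 2) (derivative (gq A x y))‖ < 1
      rw [ht2, g3]; exact s3
    · show ‖aeval (t 3) (derivative (gq A x y))‖ < 1
      rw [ht3, g4]; exact s4
  obtain ⟨K, iK, iN, η, hfr, hη, hdK, hnorm, hemb, hall⟩ := Pool.Agent.LibST91.field_eta 4
    (gq A x y) (gq_monic A x y) (gq_natDegree A x y) t hinj hroot 0 hsmall
  obtain ⟨σ, hσ⟩ := hemb 2
  obtain ⟨τ, hτ⟩ := hemb 3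
  rw [ht2, g3] at hσ
  rw [ht3, g4] at hτ
  -- the norm
  have hprod : ((Algebra.norm ℤ η : ℤ) : ℂ) = -(4096 * ((4 * A ^ 3 + 27 * B ^ 2 : ℤ) : ℂ)) := by
    rw [hnorm, Fin.prod_univ_four, ht0, ht1, ht2, ht3, g1, g2, g3, g4]
    have h1 : (t1 - t2) * (t1 - t3) * (t1 - t4) * ((t2 - t1) * (t2 - t3) * (t2 - t4)) *
        ((t3 - t1) * (t3 - t2) * (t3 - t4)) * ((t4 - t1) * (t4 - t2) * (t4 - t3)) =
        (((t1 - t2) * (t3 - t4)) * ((t1 - t3) * (t4 - t2)) * ((t1 - t4) * (t2 - t3))) ^ 2 := by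
      ring
    rw [h1, E1, E2, E3]
    push_cast
    linear_combination (4096 : ℂ) * hdis
  have hnabs : |((Algebra.norm ℤ η : ℤ) : ℝ)| = 4096 * |((4 * A ^ 3 + 27 * B ^ 2 : ℤ) : ℝ)| := by
    have h1 : (Algebra.norm ℤ η : ℤ) = -(4096 * (4 * A ^ 3 + 27 * B ^ 2)) := by
      have : (((Algebra.norm ℤ η : ℤ)) : ℂ) = ((-(4096 * (4 * A ^ 3 + 27 * B ^ 2)) : ℤ) : ℂ) := by
        rw [hprod]
        push_cast
        ring
      exact_mod_cast this
    rw [h1]
    push_cast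
    rw [abs_neg, abs_mul, abs_of_pos (by norm_num : (0 : ℝ) < 4096)]
  -- the four sizes
  obtain ⟨N1, hN1⟩ : ∃ N, N = ‖(t1 - t2) * (t1 - t3) * (t1 - t4)‖ := ⟨_, rfl⟩
  obtain ⟨N2, hN2⟩ : ∃ N, N = ‖(t2 - t1) * (t2 - t3) * (t2 - t4)‖ := ⟨_, rfl⟩
  obtain ⟨N3, hN3⟩ : ∃ N, N = ‖(t3 - t1) * (t3 - t2) * (t3 - t4)‖ := ⟨_, rfl⟩
  obtain ⟨N4, hN4⟩ : ∃ N, N = ‖(t4 - t1) * (t4 - t2) * (t4 - t3)‖ := ⟨_, rfl⟩
  rw [← hN1] at s1
  rw [← hN2] at s2
  rw [← hN3] at s3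
  rw [← hN4] at s4
  have p1 : 0 < N1 := by
    rw [hN1]; exact norm_pos_iff.2 (mul_ne_zero (mul_ne_zero t12 t13) t14)
  have t21 : t2 - t1 ≠ 0 := by intro h0; apply t12; linear_combination -h0
  have t31 : t3 - t1 ≠ 0 := by intro h0; apply t13; linear_combination -h0
  have t41 : t4 - t1 ≠ 0 := by intro h0; apply t14; linear_combination -h0
  have t32 : t3 - t2 ≠ 0 := by intro h0; apply t23; linear_combination -h0
  have t42 : t4 - t2 ≠ 0 := by intro h0; apply t24; linear_combination -h0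
  have t43 : t4 - t3 ≠ 0 := by intro h0; apply t34; linear_combination -h0
  have p2 : 0 < N2 := by
    rw [hN2]; exact norm_pos_iff.2 (mul_ne_zero (mul_ne_zero t21 t23) t24)
  have p3 : 0 < N3 := by
    rw [hN3]; exact norm_pos_iff.2 (mul_ne_zero (mul_ne_zero t31 t32) t34)
  have p4 : 0 < N4 := by
    rw [hN4]; exact norm_pos_iff.2 (mul_ne_zero (mul_ne_zero t41 t42) t43)
  have hNN : 1 ≤ N1 * N2 * N3 * N4 := by
    have h1 : N1 * N2 * N3 * N4 = ‖((Algebra.norm ℤ η : ℤ) : ℂ)‖ := by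
      rw [hnorm, Fin.prod_univ_four, ht0, ht1, ht2, ht3, g1, g2, g3, g4, norm_mul, norm_mul,
        norm_mul, hN1, hN2, hN3, hN4]
    rw [h1, Complex.norm_intCast]
    have h2 : (Algebra.norm ℤ η : ℤ) ≠ 0 := by
      intro h0
      rw [h0] at hnabs
      have h3 : (0 : ℝ) < |((4 * A ^ 3 + 27 * B ^ 2 : ℤ) : ℝ)| := by
        rw [abs_pos]
        exact_mod_cast hΔ
      push_cast at hnabs h3
      rw [abs_zero] at hnabs
      linarith
    have := Int.one_le_abs h2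
    exact_mod_cast this
  obtain ⟨Λ, hΛ⟩ : ∃ Λ, Λ = 3 * Real.log (5 * r) := ⟨_, rfl⟩
  have l1 : Real.log N1 ≤ Λ := by
    have := Real.log_le_log p1 s1
    rw [Real.log_pow] at this
    push_cast at this
    rw [hΛ]
    exact this
  have l2 : Real.log N2 ≤ 0 := Real.log_nonpos p2.le s2.le
  have l3 : Real.log N3 ≤ 0 := Real.log_nonpos p3.le s3.le
  have l4 : Real.log N4 ≤ 0 := Real.log_nonpos p4.le s4.le
  have hΛ0 : 0 ≤ Λ := by
    rw [hΛ]
    have := Real.log_nonneg (show (1 : ℝ) ≤ 5 * r by linarith)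
    linarith
  have lsum : 0 ≤ Real.log N1 + Real.log N2 + Real.log N3 + Real.log N4 := by
    rw [← Real.log_mul p1.ne' p2.ne', ← Real.log_mul (by positivity) p3.ne',
      ← Real.log_mul (by positivity) p4.ne']
    exact Real.log_nonneg hNN
  refine ⟨K, iK, iN, η, σ, τ, e1, e2, e3, hCR', hfr, hη, ?_, hnabs, ?_, ?_⟩
  · rw [← hnabs]
    exact hdK
  · intro φ
    obtain ⟨i, hi⟩ := hall φ
    rw [hi, ← hΛ]
    fin_cases i
    · show |Real.log ‖aeval (t 0) (derivative (gq A x y))‖| ≤ Λ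
      rw [ht0, g1, ← hN1, abs_le]
      constructor <;> linarith
    · show |Real.log ‖aeval (t 1) (derivative (gq A x y))‖| ≤ Λ
      rw [ht1, g2, ← hN2, abs_le]
      constructor <;> linarith
    · show |Real.log ‖aeval (t 2) (derivative (gq A x y))‖| ≤ Λ
      rw [ht2, g3, ← hN3, abs_le]
      constructor <;> linarith
    · show |Real.log ‖aeval (t 3) (derivative (gq A x y))‖| ≤ Λ
      rw [ht3, g4, ← hN4, abs_le]
      constructor <;> linarith
  -- the multiplicative relation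
  have n21 : e2 - e1 ≠ 0 := by intro h0; apply n12; linear_combination -h0
  have hβ : (e1 - e3) / (e2 - e1) * σ (η : K) / τ (η : K) = ((t1 - t3) / (t1 - t4)) ^ 2 := by
    rw [hσ, hτ]
    have h1 : (e1 - e3) / (e2 - e1) = ((t1 - t3) * (t4 - t2)) / ((t1 - t4) * (t2 - t3)) := by
      rw [E2, E3, mul_div_mul_left _ _ (by norm_num : (4 : ℂ) ≠ 0)]
    rw [h1]
    field_simp
    ring
  obtain ⟨w, hw⟩ : ∃ w, w = (t4 - t3) / (t1 - t4) := ⟨_, rfl⟩
  have hw1 : (t1 - t3) / (t1 - t4) = 1 + w := by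
    rw [hw]
    field_simp
    ring
  have hw0 : w ≠ 0 := by
    rw [hw]
    exact div_ne_zero t43 t14
  have hwn : ‖w‖ ≤ δ / (3 * r) := by
    rw [hw, norm_div, norm_sub_rev t4 t3]
    gcongr
  have hδ3 : δ / (3 * r) < 1 := by
    rw [div_lt_one (by positivity)]
    linarith
  have hsq : ((t1 - t3) / (t1 - t4)) ^ 2 - 1 = w * (2 + w) := by
    rw [hw1]
    ring
  have h2w : 2 + w ≠ 0 := by
    intro h0
    have h1 : w = -2 := by linear_combination h0
    rw [h1, norm_neg] at hwn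
    have h2 : ‖(2 : ℂ)‖ = 2 := by norm_num
    linarith
  rw [hβ]
  constructor
  · intro h0
    have h1 : w * (2 + w) = 0 := by rw [← hsq, h0]; ring
    rcases mul_eq_zero.1 h1 with h1 | h1
    · exact hw0 h1
    · exact h2w h1
  · rw [hsq, norm_mul]
    have h1 : ‖2 + w‖ ≤ 3 := by
      refine (norm_add_le _ _).trans ?_
      have h2 : ‖(2 : ℂ)‖ = 2 := by norm_num
      linarith
    calc ‖w‖ * ‖2 + w‖ ≤ (δ / (3 * r)) * 3 := by gcongr
      _ = δ / r := by field_simp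
      _ ≤ 1 / r := by gcongr

end SQ55
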