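import Pool.Agent.LibSQ55.Q4

/-!
The bound for the large points.
-/

set_option autoImplicit false

open NumberField

namespace SQ55

open Pool.Agent.LibST91

theorem disc_le {A B : ℤ} {R : ℝ} (hR : R = 1 + |(A : ℝ)| + |(B : ℝ)|) :
    |((4 * A ^ 3 + 27 * B ^ 2 : ℤ) : ℝ)| ≤ 31 * R ^ 3 := by
  have hA := abs_nonneg (A : ℝ)
  have hB := abs_nonneg (B : ℝ)
  have hR1 : 1 ≤ R := by linarith
  have h5 : |(A : ℝ)| ≤ R := by linarith
  have h6 : |(B : ℝ)| ≤ R := by linarith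
  push_cast
  refine (abs_add_le _ _).trans ?_
  rw [abs_mul, abs_mul, abs_pow, abs_pow, abs_of_pos (by norm_num : (0 : ℝ) < 4),
    abs_of_pos (by norm_num : (0 : ℝ) < 27)]
  have h7 : R ^ 2 ≤ R ^ 3 := pow_le_pow_right₀ hR1 (by norm_num)
  calc 4 * |(A : ℝ)| ^ 3 + 27 * |(B : ℝ)| ^ 2 ≤ 4 * R ^ 3 + 27 * R ^ 2 := by gcongr
    _ ≤ 31 * R ^ 3 := by linarith

theorem basic {A B : ℤ} {R L : ℝ} (hR : R = 1 + |(A : ℝ)| + |(B : ℝ)|)
    (hL : L = Real.log (2 + |(A : ℝ)| + |(B : ℝ)|)) (hΔ : 4 * A ^ 3 + 27 * B ^ 2 ≠ 0) :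
    2 ≤ R ∧ 1 ≤ L ∧ Real.log R ≤ L ∧ 1 ≤ |((4 * A ^ 3 + 27 * B ^ 2 : ℤ) : ℝ)| ∧
      Real.log |((4 * A ^ 3 + 27 * B ^ 2 : ℤ) : ℝ)| ≤ 5 * Real.log 2 + 3 * L := by
  have hA := abs_nonneg (A : ℝ)
  have hB := abs_nonneg (B : ℝ)
  have hR2 : 2 ≤ R := by
    have h1 : A ≠ 0 ∨ B ≠ 0 := by
      by_contra hc
      push Not at hc
      apply hΔ
      rw [hc.1, hc.2]
      norm_num
    rcases h1 with h1 | h1
    · have : (1 : ℝ) ≤ |(A : ℝ)| := by exact_mod_cast Int.one_le_abs h1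
      linarith
    · have : (1 : ℝ) ≤ |(B : ℝ)| := by exact_mod_cast Int.one_le_abs h1
      linarith
  have hLR : L = Real.log (1 + R) := by rw [hL, hR]; congr 1; ring
  have hlogR : Real.log R ≤ L := by
    rw [hLR]
    exact Real.log_le_log (by linarith) (by linarith)
  have hL1 : 1 ≤ L := by
    rw [hLR, Real.le_log_iff_exp_le (by linarith)]
    have := Real.exp_one_lt_d9
    linarith
  have hd1 : 1 ≤ |((4 * A ^ 3 + 27 * B ^ 2 : ℤ) : ℝ)| := by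
    have := Int.one_le_abs hΔ
    exact_mod_cast this
  refine ⟨hR2, hL1, hlogR, hd1, ?_⟩
  calc Real.log |((4 * A ^ 3 + 27 * B ^ 2 : ℤ) : ℝ)| ≤ Real.log (31 * R ^ 3) :=
        Real.log_le_log (by linarith) (disc_le hR)
    _ = Real.log 31 + 3 * Real.log R := by
        rw [Real.log_mul (by norm_num) (by positivity), Real.log_pow]
        norm_num
    _ ≤ 5 * Real.log 2 + 3 * L := by
        have h9 : Real.log 31 ≤ Real.log (2 ^ 5) := Real.log_le_log (by norm_num) (by norm_num)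
        rw [Real.log_pow] at h9
        push_cast at h9
        linarith

/-- The large points. -/
theorem weier_big (hX : MainX 4 9) : ∃ C : ℝ, 0 ≤ C ∧ ∃ κ : ℕ, ∀ (A B x y : ℤ) (R r L : ℝ),
    R = 1 + |(A : ℝ)| + |(B : ℝ)| → L = Real.log (2 + |(A : ℝ)| + |(B : ℝ)|) → 0 ≤ r →
    r ^ 2 = (x : ℝ) → 100 * R ^ 2 ≤ r → 0 ≤ y → y ^ 2 = x ^ 3 + A * x + B →
    4 * A ^ 3 + 27 * B ^ 2 ≠ 0 →
    Real.log r ≤ C * (√|((4 * A ^ 3 + 27 * B ^ 2 : ℤ) : ℝ)| * L ^ κ) := by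
  obtain ⟨C0, hC0, κ, hmain⟩ := hX
  obtain ⟨C1, hC1, hit⟩ := log_iter κ
  obtain ⟨c1, hc1⟩ : ∃ c1 : ℝ, c1 = 4000 + C0 * 13312 * 2 ^ κ := ⟨_, rfl⟩
  have hc14 : 4000 ≤ c1 := by
    rw [hc1]
    have : 0 ≤ C0 * 13312 * 2 ^ κ := by positivity
    linarith
  obtain ⟨c2, hc2⟩ : ∃ c2 : ℝ, c2 = Real.log c1 + 6 := ⟨_, rfl⟩
  have hlc1 : 0 ≤ Real.log c1 := Real.log_nonneg (by linarith)
  have hc20 : 0 ≤ c2 := by rw [hc2]; linarith
  refine ⟨C1 * (c1 * c2 ^ κ), by positivity, κ + 2, ?_⟩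
  intro A B x y R r L hR hL hr0 hrx h4 hy hE hΔ
  obtain ⟨hR2, hL1, hlogR, hd1, hld⟩ := basic hR hL hΔ
  obtain ⟨K, iK, iN, η, σ, τ, e1, e2, e3, hCR, hfr, hη, hdK, hnorm, hall, hne, hle⟩ :=
    big_data hR hrx h4 hy hE hΔ
  obtain ⟨F, iF, iN', ι, c, ℓ, hfF, hc, hadm⟩ := adm_ratio hCR hΔ hL
  obtain ⟨d, hd⟩ : ∃ d, d = |((4 * A ^ 3 + 27 * B ^ 2 : ℤ) : ℝ)| := ⟨_, rfl⟩
  rw [← hd] at hd1 hld hdK hnorm ⊢
  have hd0 : 0 < d := by linarith
  have hlog2 := Real.log_two_lt_d9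
  have hr400 : 400 ≤ r := by nlinarith
  have hrpos : 0 < r := by linarith
  obtain ⟨X, hXd⟩ : ∃ X, X = Real.log r := ⟨_, rfl⟩
  have hl5 : Real.log 5 ≤ 3 * Real.log 2 := by
    have h9 : Real.log 5 ≤ Real.log (2 ^ 3) := Real.log_le_log (by norm_num) (by norm_num)
    rw [Real.log_pow] at h9
    push_cast at h9
    exact h9
  have hX5 : 5 ≤ X := by
    rw [hXd]
    have h1 : Real.log (2 ^ 8) ≤ Real.log r := Real.log_le_log (by norm_num) (by
      have : (2 : ℝ) ^ 8 = 256 := by norm_num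
      rw [this]
      linarith)
    rw [Real.log_pow] at h1
    push_cast at h1
    have := Real.log_two_gt_d9
    linarith
  obtain ⟨Hh, hHh⟩ : ∃ Hh, Hh = 3 * Real.log (5 * r) := ⟨_, rfl⟩
  have hHh1 : Hh = 3 * (Real.log 5 + X) := by
    rw [hHh, Real.log_mul (by norm_num) hrpos.ne', hXd]
  have hl50 : 0 ≤ Real.log 5 := Real.log_nonneg (by norm_num)
  have hH1 : 1 ≤ Hh := by rw [hHh1]; linarith
  have hH6 : Hh ≤ 6 * X := by rw [hHh1]; linarith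
  rw [← hHh] at hall
  have hm := hmain K hfr.le F hfF η hη σ τ ι c ℓ (13 * L) hadm Hh hH1 hall (by
    rw [hc]
    exact hne)
  rw [hc] at hm
  have hm2 := hm.trans hle
  obtain ⟨D, hD⟩ : ∃ D, D = |(discr K : ℝ)| := ⟨_, rfl⟩
  rw [← hD] at hdK hm2
  rw [hnorm] at hm2
  have hD1 : 1 ≤ D := by
    rw [hD]
    have := Int.one_le_abs (discr_ne_zero K)
    exact_mod_cast this
  obtain ⟨ν, hν⟩ : ∃ ν, ν = 1 + Real.log (4096 * d) := ⟨_, rfl⟩
  rw [← hν] at hm2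
  have hν1 : 1 ≤ ν := by
    rw [hν]
    have := Real.log_nonneg (show (1 : ℝ) ≤ 4096 * d by linarith)
    linarith
  have hν16 : ν ≤ 16 * L := by
    rw [hν, Real.log_mul (by norm_num) hd0.ne']
    have h9 : Real.log 4096 = 12 * Real.log 2 := by
      rw [show (4096 : ℝ) = 2 ^ 12 by norm_num, Real.log_pow]
      push_cast
      ring
    rw [h9]
    linarith
  -- the exponent
  obtain ⟨Arg, hArg⟩ : ∃ Arg, Arg = 3 * D * ν * (13 * L) * Hh := ⟨_, rfl⟩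
  rw [← hArg] at hm2
  have hX1 : 1 ≤ X := by linarith
  have hL0 : 0 < L := by linarith
  have hArg1 : 1 ≤ Arg := by
    rw [hArg]
    have q1 : 1 ≤ 3 * D := by linarith
    have q2 : 1 ≤ 3 * D * ν := one_le_mul_of_one_le_of_one_le q1 hν1
    have q3 : 1 ≤ 13 * L := by linarith
    exact one_le_mul_of_one_le_of_one_le (one_le_mul_of_one_le_of_one_le q2 q3) hH1
  obtain ⟨A', hA'⟩ : ∃ A', A' = c1 * (√d * L ^ 2) := ⟨_, rfl⟩
  have hsd : 1 ≤ √d := Real.one_le_sqrt.2 hd1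
  have hsd2 : √d ^ 2 = d := Real.sq_sqrt hd0.le
  have hL2 : 1 ≤ L ^ 2 := one_le_pow₀ hL1
  have hA'1 : 4000 ≤ A' := by
    rw [hA']
    have : 1 ≤ √d * L ^ 2 := one_le_mul_of_one_le_of_one_le hsd hL2
    nlinarith
  have hArg2 : Arg ≤ (A' * X) ^ 2 := by
    have q1 : Arg ≤ 3 * (4096 * d) * (16 * L) * (13 * L) * (6 * X) := by
      rw [hArg]
      gcongr
    have q2 : 3 * (4096 * d) * (16 * L) * (13 * L) * (6 * X) = 15335424 * (d * L ^ 2 * X) := by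
      ring
    have q3 : (A' * X) ^ 2 = c1 ^ 2 * (√d ^ 2 * L ^ 2 * X) * (L ^ 2 * X) := by
      rw [hA']
      ring
    rw [hsd2] at q3
    have q4 : (15335424 : ℝ) ≤ c1 ^ 2 := by nlinarith
    have q5 : 1 ≤ L ^ 2 * X := one_le_mul_of_one_le_of_one_le hL2 hX1
    rw [q2] at q1
    rw [q3]
    calc Arg ≤ 15335424 * (d * L ^ 2 * X) * 1 := by linarith
      _ ≤ c1 ^ 2 * (d * L ^ 2 * X) * (L ^ 2 * X) := by gcongr
  have hAX1 : 1 ≤ A' * X := by nlinarith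
  have hlogArg : Real.log Arg ≤ 2 * Real.log (A' * X) := by
    have := Real.log_le_log (by linarith) hArg2
    rw [Real.log_pow] at this
    exact_mod_cast this
  have hlogArg0 : 0 ≤ Real.log Arg := Real.log_nonneg hArg1
  have hlAX : 0 ≤ Real.log (A' * X) := Real.log_nonneg hAX1
  have hsD : √D ≤ 64 * √d := by
    have h1 : √D ≤ √(4096 * d) := Real.sqrt_le_sqrt hdK
    have h2 : √(4096 * d) = 64 * √d := by
      rw [Real.sqrt_mul (by norm_num), show (4096 : ℝ) = 64 ^ 2 by norm_num,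
        Real.sqrt_sq (by norm_num)]
    linarith
  have hXle : X ≤ A' * Real.log (A' * X) ^ κ := by
    have h1 : X ≤ C0 * (√D * ν * (13 * L) * Real.log Arg ^ κ) := by
      have h2 := Real.log_le_log (Real.exp_pos _) hm2
      rw [Real.log_exp, one_div, Real.log_inv, ← hXd] at h2
      linarith
    calc X ≤ C0 * (√D * ν * (13 * L) * Real.log Arg ^ κ) := h1
      _ ≤ C0 * ((64 * √d) * (16 * L) * (13 * L) * (2 * Real.log (A' * X)) ^ κ) := by gcongr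
      _ = C0 * 13312 * 2 ^ κ * (√d * L ^ 2) * Real.log (A' * X) ^ κ := by
          rw [mul_pow]
          ring
      _ ≤ c1 * (√d * L ^ 2) * Real.log (A' * X) ^ κ := by
          have : C0 * 13312 * 2 ^ κ ≤ c1 := by rw [hc1]; linarith
          gcongr
      _ = A' * Real.log (A' * X) ^ κ := by rw [hA']
  have hfin := hit A' X (by linarith) hX1 hXle
  have hlogA' : Real.log A' ≤ c2 * L := by
    rw [hA', Real.log_mul (by positivity) (by positivity), Real.log_mul (by positivity)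
      (by positivity), Real.log_pow, Real.log_sqrt hd0.le]
    have h1 : Real.log L ≤ L := (Real.log_le_sub_one_of_pos hL0).trans (by linarith)
    have h2 : Real.log c1 ≤ Real.log c1 * L := le_mul_of_one_le_right hlc1 hL1
    push_cast
    rw [hc2]
    linarith
  have hlogA'0 : 0 ≤ Real.log A' := Real.log_nonneg (by linarith)
  calc Real.log r = X := hXd.symm
    _ ≤ C1 * (A' * Real.log A' ^ κ) := hfin
    _ ≤ C1 * (A' * (c2 * L) ^ κ) := by
        have : 0 ≤ A' := by linarith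
        gcongr
    _ = C1 * (c1 * c2 ^ κ) * (√d * L ^ (κ + 2)) := by
        rw [hA', mul_pow]
        ring

/-- The small points. -/
theorem weier_small {A B x y : ℤ} {R L : ℝ} (hR : R = 1 + |(A : ℝ)| + |(B : ℝ)|)
    (hL : L = Real.log (2 + |(A : ℝ)| + |(B : ℝ)|)) (hΔ : 4 * A ^ 3 + 27 * B ^ 2 ≠ 0)
    (hx : |(x : ℝ)| ≤ 10000 * R ^ 4) (hE : y ^ 2 = x ^ 3 + A * x + B) :
    Real.log (max |(x : ℝ)| |(y : ℝ)|) ≤ 60 * L := by
  obtain ⟨hR2, hL1, hlogR, -, -⟩ := basic hR hL hΔ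
  have hA := abs_nonneg (A : ℝ)
  have hB := abs_nonneg (B : ℝ)
  have h5 : |(A : ℝ)| ≤ R := by linarith
  have h6 : |(B : ℝ)| ≤ R := by linarith
  obtain ⟨S, hS⟩ : ∃ S, S = 10000 * R ^ 4 := ⟨_, rfl⟩
  have hR4 : R ≤ R ^ 4 := by
    calc R = R ^ 1 := (pow_one R).symm
      _ ≤ R ^ 4 := pow_le_pow_right₀ (by linarith) (by norm_num)
  have hSR : R ≤ S := by rw [hS]; linarith
  have hS1 : 1 ≤ S := by linarith
  rw [← hS] at hx
  have hER : (y : ℝ) ^ 2 = (x : ℝ) ^ 3 + A * x + B := by exact_mod_cast hE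
  have hy2 : |(y : ℝ)| ^ 2 ≤ 3 * S ^ 3 := by
    rw [sq_abs, hER]
    have h7 : (x : ℝ) ^ 3 ≤ S ^ 3 := by
      calc (x : ℝ) ^ 3 ≤ |(x : ℝ) ^ 3| := le_abs_self _
        _ = |(x : ℝ)| ^ 3 := abs_pow _ _
        _ ≤ S ^ 3 := by gcongr
    have h8 : (A : ℝ) * x ≤ S ^ 3 := by
      calc (A : ℝ) * x ≤ |(A : ℝ) * x| := le_abs_self _
        _ = |(A : ℝ)| * |(x : ℝ)| := abs_mul _ _
        _ ≤ S * S := by
            apply mul_le_mul (h5.trans hSR) hx (abs_nonneg _) (by linarith)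
        _ = S ^ 2 := by ring
        _ ≤ S ^ 3 := pow_le_pow_right₀ hS1 (by norm_num)
    have h9 : (B : ℝ) ≤ S ^ 3 := by
      calc (B : ℝ) ≤ |(B : ℝ)| := le_abs_self _
        _ ≤ S := h6.trans hSR
        _ = S ^ 1 := (pow_one S).symm
        _ ≤ S ^ 3 := pow_le_pow_right₀ hS1 (by norm_num)
    linarith
  have hy1 : |(y : ℝ)| ≤ 3 * S ^ 3 := by
    rcases le_total |(y : ℝ)| 1 with h | h
    · have : 1 ≤ S ^ 3 := one_le_pow₀ hS1
      linarith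
    · nlinarith
  have hx1 : |(x : ℝ)| ≤ 3 * S ^ 3 := by
    have : S ≤ S ^ 3 := by
      calc S = S ^ 1 := (pow_one S).symm
        _ ≤ S ^ 3 := pow_le_pow_right₀ hS1 (by norm_num)
    have : 0 ≤ S ^ 3 := by positivity
    linarith
  have hmax : max |(x : ℝ)| |(y : ℝ)| ≤ 3 * S ^ 3 := max_le hx1 hy1
  have hS3 : 3 * S ^ 3 = 3000000000000 * R ^ 12 := by rw [hS]; ring
  have hlog : Real.log (3 * S ^ 3) ≤ 60 * L := by
    rw [hS3, Real.log_mul (by norm_num) (by positivity), Real.log_pow]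
    have h9 : Real.log 3000000000000 ≤ Real.log (2 ^ 42) :=
      Real.log_le_log (by norm_num) (by norm_num)
    rw [Real.log_pow] at h9
    push_cast at h9 ⊢
    have := Real.log_two_lt_d9
    linarith
  rcases eq_or_lt_of_le (le_max_of_le_left (abs_nonneg (x : ℝ)) : 0 ≤ max |(x : ℝ)| |(y : ℝ)|) with h | h
  · rw [← h, Real.log_zero]
    linarith
  · exact (Real.log_le_log h hmax).trans hlog

/-- All points. -/
theorem weierstrass' (hX : MainX 4 9) : ∃ C : ℝ, 0 < C ∧ ∃ κ : ℕ, ∀ A B x y : ℤ,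
    4 * A ^ 3 + 27 * B ^ 2 ≠ 0 → y ^ 2 = x ^ 3 + A * x + B →
    Real.log (max |(x : ℝ)| |(y : ℝ)|) ≤ C * √|((4 * A ^ 3 + 27 * B ^ 2 : ℤ) : ℝ)| *
      Real.log (2 + |(A : ℝ)| + |(B : ℝ)|) ^ κ := by
  obtain ⟨C, hC, κ, hbig⟩ := weier_big hX
  refine ⟨4 * C + 60, by positivity, κ + 1, fun A B x y hΔ hE => ?_⟩
  obtain ⟨R, hR⟩ : ∃ R, R = 1 + |(A : ℝ)| + |(B : ℝ)| := ⟨_, rfl⟩
  obtain ⟨L, hL⟩ : ∃ L, L = Real.log (2 + |(A : ℝ)| + |(B : ℝ)|) := ⟨_, rfl⟩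
  obtain ⟨hR2, hL1, hlogR, hd1, -⟩ := basic hR hL hΔ
  have hA := abs_nonneg (A : ℝ)
  have hB := abs_nonneg (B : ℝ)
  have h5 : |(A : ℝ)| ≤ R := by linarith
  have h6 : |(B : ℝ)| ≤ R := by linarith
  rw [← hL]
  have hsd : 1 ≤ √|((4 * A ^ 3 + 27 * B ^ 2 : ℤ) : ℝ)| := Real.one_le_sqrt.2 hd1
  obtain ⟨s, hs⟩ : ∃ s, s = √|((4 * A ^ 3 + 27 * B ^ 2 : ℤ) : ℝ)| := ⟨_, rfl⟩
  rw [← hs] at hsd ⊢
  have hLκ : L ≤ L ^ (κ + 1) := by
    calc L = L ^ 1 := (pow_one L).symm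
      _ ≤ L ^ (κ + 1) := pow_le_pow_right₀ hL1 (by omega)
  have hLκ' : L ^ κ ≤ L ^ (κ + 1) := pow_le_pow_right₀ hL1 (by omega)
  have hER : (y : ℝ) ^ 2 = (x : ℝ) ^ 3 + A * x + B := by exact_mod_cast hE
  by_cases hx : |(x : ℝ)| ≤ 10000 * R ^ 4
  · have h1 := weier_small hR hL hΔ hx hE
    calc Real.log (max |(x : ℝ)| |(y : ℝ)|) ≤ 60 * L := h1
      _ = 60 * 1 * L := by ring
      _ ≤ (4 * C + 60) * s * L ^ (κ + 1) := by
          have : 60 ≤ 4 * C + 60 := by linarith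
          gcongr
  · push Not at hx
    have hR4 : R ≤ R ^ 4 := by
      calc R = R ^ 1 := (pow_one R).symm
        _ ≤ R ^ 4 := pow_le_pow_right₀ (by linarith) (by norm_num)
    have hxR : R < |(x : ℝ)| := by linarith
    have hx0 : 0 < (x : ℝ) := by
      by_contra hcon
      push Not at hcon
      rw [abs_of_nonpos hcon] at hxR
      obtain ⟨z, hz⟩ : ∃ z : ℝ, z = -(x : ℝ) := ⟨_, rfl⟩
      rw [← hz] at hxR
      have hxz : (x : ℝ) = -z := by rw [hz]; ring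
      rw [hxz] at hER
      have h7 : -((A : ℝ) * z) ≤ |(A : ℝ)| * z := by
        have := neg_abs_le (A : ℝ)
        have hz0 : 0 ≤ z := by linarith
        nlinarith
      have h8 : (B : ℝ) ≤ |(B : ℝ)| * z := by
        have := le_abs_self (B : ℝ)
        have hz1 : 1 ≤ z := by linarith
        nlinarith
      have h9 : z ^ 3 ≤ (R - 1) * z := by
        have := sq_nonneg (y : ℝ)
        have h10 : R - 1 = |(A : ℝ)| + |(B : ℝ)| := by rw [hR]; ring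
        rw [h10]
        nlinarith
      have h10 : z ^ 2 ≤ R - 1 := by
        have hz0 : 0 < z := by linarith
        have : z ^ 2 * z ≤ (R - 1) * z := by linarith
        exact le_of_mul_le_mul_right this hz0
      nlinarith
    rw [abs_of_pos hx0] at hx hxR
    obtain ⟨r, hr⟩ : ∃ r, r = √(x : ℝ) := ⟨_, rfl⟩
    have hrx : r ^ 2 = (x : ℝ) := by rw [hr]; exact Real.sq_sqrt hx0.le
    have hr0 : 0 ≤ r := by rw [hr]; positivity
    have hr100 : 100 * R ^ 2 ≤ r := by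
      have h1 : (100 * R ^ 2) ^ 2 ≤ r ^ 2 := by
        rw [hrx]
        calc (100 * R ^ 2) ^ 2 = 10000 * R ^ 4 := by ring
          _ ≤ (x : ℝ) := hx.le
      exact le_of_pow_le_pow_left₀ (by norm_num) hr0 h1
    have h1 := hbig A B x |y| R r L hR hL hr0 hrx hr100 (abs_nonneg y) (by rw [sq_abs]; exact hE) hΔ
    rw [← hs] at h1
    have hr1 : 1 ≤ r := by nlinarith
    have hr1' : 0 < r := by linarith
    have hRx : R ≤ (x : ℝ) := hxR.le
    have hx3 : 3 ≤ (x : ℝ) := by nlinarith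
    have hyx : |(y : ℝ)| ≤ r ^ 4 := by
      have h2 : |(y : ℝ)| ^ 2 ≤ (r ^ 4) ^ 2 := by
        rw [sq_abs, hER]
        have e1 : (r ^ 4) ^ 2 = (x : ℝ) ^ 4 := by
          rw [← hrx]
          ring
        rw [e1]
        have e2 : (A : ℝ) * x ≤ x ^ 2 := by
          have := (le_abs_self (A : ℝ)).trans (h5.trans hRx)
          nlinarith
        have e3 : (B : ℝ) ≤ x := (le_abs_self (B : ℝ)).trans (h6.trans hRx)
        have e4 : (x : ℝ) ^ 2 ≤ x ^ 3 := pow_le_pow_right₀ (by linarith) (by norm_num)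
        have e5 : (x : ℝ) ≤ x ^ 3 := by
          calc (x : ℝ) = x ^ 1 := (pow_one _).symm
            _ ≤ x ^ 3 := pow_le_pow_right₀ (by linarith) (by norm_num)
        have e6 : 3 * (x : ℝ) ^ 3 ≤ x ^ 4 := by
          calc 3 * (x : ℝ) ^ 3 ≤ (x : ℝ) * (x : ℝ) ^ 3 := by gcongr
            _ = (x : ℝ) ^ 4 := by ring
        linarith
      exact le_of_pow_le_pow_left₀ (by norm_num) (by positivity) h2
    have hxx : |(x : ℝ)| ≤ r ^ 4 := by
      rw [abs_of_pos hx0, ← hrx]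
      exact pow_le_pow_right₀ hr1 (by norm_num)
    have hmax : max |(x : ℝ)| |(y : ℝ)| ≤ r ^ 4 := max_le hxx hyx
    have hmax0 : 0 < max |(x : ℝ)| |(y : ℝ)| := lt_max_of_lt_left (abs_pos.2 hx0.ne')
    have h3 := Real.log_le_log hmax0 hmax
    rw [Real.log_pow] at h3
    push_cast at h3
    calc Real.log (max |(x : ℝ)| |(y : ℝ)|) ≤ 4 * Real.log r := h3
      _ ≤ 4 * (C * (s * L ^ κ)) := by linarith
      _ = 4 * C * s * L ^ κ := by ring
      _ ≤ (4 * C + 60) * s * L ^ (κ + 1) := by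
          have : 4 * C ≤ 4 * C + 60 := by linarith
          gcongr

end SQ55
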