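import Pool.Agent.LibSQ55.Q5
import Pool.Agent.LibST91T.TX3

/-!
# The bound for the integral points of Weierstrass equations
-/

set_option autoImplicit false

namespace Pool.Agent.LibST91

theorem weierstrass : ∃ C : ℝ, 0 < C ∧ ∃ κ : ℕ, ∀ A B x y : ℤ,
    4 * A ^ 3 + 27 * B ^ 2 ≠ 0 → y ^ 2 = x ^ 3 + A * x + B →
    Real.log (max |(x : ℝ)| |(y : ℝ)|) ≤ C * √|((4 * A ^ 3 + 27 * B ^ 2 : ℤ) : ℝ)| *
      Real.log (2 + |(A : ℝ)| + |(B : ℝ)|) ^ κ :=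
  SQ55.weierstrass' (main_X 4 9)

end Pool.Agent.LibST91
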